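import Pool.Agent.P.MP_119182_lc.AD.Iface

/-! Step BIR. -/

set_option autoImplicit false

namespace Pool.Agent.P.MP_119182_lc.AD

open Finset
open scoped Classical
open NU (Run mr)
open LU (key tch up low isl Nx within beyond LK)

theorem p_BIR (hLINK : LU.S_LINK) (hFZ : S_FZ) :
    S_BIR := by
  intro d S h s t y hs tc hy hu hn
  obtain ⟨f1, f2, -⟩ := hFZ d h.ok
  obtain ⟨a1, a2, a3, a4⟩ := (f2 (s + 1) t y tc.1).1 hn
  have e := (f1 (s + 1) t y tc.1 a1 a2.le a4).2.1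
  have r : d.rp (s + 1) y = d.x s := by
    by_contra hc
    exact hu ⟨tc, Or.inr ⟨hy, hc⟩⟩
  exact ⟨s, by omega, fun q b c => a4 q b c, by rw [e, r]⟩

end Pool.Agent.P.MP_119182_lc.AD
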