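import Pool.Agent.P.MP_119182_lc.AD.IfaceB
import Pool.Agent.P.MP_119182_lc.LU.TSUM

/-! Step BUD: offline weights of the items and the sum of the logarithmic ratios. -/

set_option autoImplicit false


namespace Pool.Agent.P.MP_119182_lc.ADBud

open Finset
open scoped Classical
open NU (sg cc it dst pass jmp MM)

section
variable (y : ℕ → ℤ) (M : ℕ)

/-- The last access to `z` before `t`. -/
noncomputable def la (t : ℕ) (z : ℤ) : ℕ := ((range t).filter fun s => y s = z).sup id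

/-- The rank of `z` at time `t`. -/
noncomputable def rk (t : ℕ) (z : ℤ) : ℕ := #((Ico (la y t z) t).image y)

/-- The weight of `z` at time `t`. -/
noncomputable def wz (t : ℕ) (z : ℤ) : ℕ := if ∃ s < t, y s = z then M / rk y t z ^ 2 else 0

theorem le_la {t s : ℕ} {z : ℤ} (hs : s < t) (e : y s = z) : s ≤ la y t z :=
  le_sup (f := id) (mem_filter.2 ⟨mem_range.2 hs, e⟩)

theorem la_spec {t : ℕ} {z : ℤ} (h : ∃ s < t, y s = z) : la y t z < t ∧ y (la y t z) = z := by
  obtain ⟨s, hs, e⟩ := h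
  obtain ⟨r, hr, e'⟩ := exists_mem_eq_sup ((range t).filter fun r => y r = z)
    ⟨s, mem_filter.2 ⟨mem_range.2 hs, e⟩⟩ id
  rw [la, e']
  exact ⟨mem_range.1 (mem_filter.1 hr).1, (mem_filter.1 hr).2⟩

theorem rk_pos {t : ℕ} {z : ℤ} (h : ∃ s < t, y s = z) : 0 < rk y t z :=
  card_pos.2 ((nonempty_Ico.2 (la_spec y h).1).image _)

theorem wz_step {t : ℕ} {z : ℤ} (h : y t ≠ z) : wz y M (t + 1) z ≤ wz y M t z := by
  have e : la y (t + 1) z = la y t z := by
    rw [la, la, range_add_one, filter_insert, if_neg h]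
  unfold wz
  split_ifs with h1 h2
  · refine Nat.div_le_div_left (Nat.pow_le_pow_left ?_ 2) (pow_pos (rk_pos y h2) 2)
    rw [rk, rk, e]
    exact card_le_card (image_subset_image (Ico_subset_Ico_right t.le_succ))
  · obtain ⟨s, hs, e'⟩ := h1
    rcases Nat.lt_succ_iff_lt_or_eq.1 hs with h3 | rfl
    · exact absurd ⟨s, h3, e'⟩ h2
    · exact absurd e' h
  · exact Nat.zero_le _
  · exact le_rfl

theorem wz_anti {t t' : ℕ} {z : ℤ} (ht : t ≤ t') (h : ∀ r, t ≤ r → r < t' → y r ≠ z) :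
    wz y M t' z ≤ wz y M t z := by
  induction t', ht using Nat.le_induction with
  | base => exact le_rfl
  | succ k hk ih =>
    exact (wz_step y M (h k hk k.lt_succ_self)).trans (ih fun r a b => h r a (by omega))

theorem rk_lt {t : ℕ} {z z' : ℤ} (h : ∃ s < t, y s = z) (hl : la y t z < la y t z') :
    rk y t z' < rk y t z := by
  refine card_lt_card ⟨image_subset_image (Ico_subset_Ico_left hl.le), fun hs => ?_⟩
  have h1 := hs (mem_image.2 ⟨la y t z, mem_Ico.2 ⟨le_rfl, (la_spec y h).1⟩, (la_spec y h).2⟩)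
  obtain ⟨r, hr, e⟩ := mem_image.1 h1
  have := le_la y (mem_Ico.1 hr).2 e
  have := (mem_Ico.1 hr).1
  omega

theorem wz_sum (S : Finset ℤ) (t : ℕ) : ∑ z ∈ S, wz y M t z ≤ 2 * M := by
  have hi : Set.InjOn (rk y t) (S.filter fun z => ∃ s < t, y s = z) := fun z hz z' hz' e => by
    have a := (mem_filter.1 hz).2
    have b := (mem_filter.1 hz').2
    rcases lt_trichotomy (la y t z) (la y t z') with h | h | h
    · exact absurd e (rk_lt y a h).ne'
    · rw [← (la_spec y a).2, h, (la_spec y b).2]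
    · exact absurd e (rk_lt y b h).ne
  have h1 : ∑ z ∈ S, wz y M t z ≤ ∑ r ∈ Icc 1 t, M / r ^ 2 := by
    unfold wz
    rw [← sum_filter, ← sum_image (f := fun r => M / r ^ 2) hi]
    refine sum_le_sum_of_subset fun r hr => ?_
    obtain ⟨z, hz, rfl⟩ := mem_image.1 hr
    refine mem_Icc.2 ⟨rk_pos y (mem_filter.1 hz).2, card_image_le.trans ?_⟩
    rw [Nat.card_Ico]
    omega
  have h2 : ((∑ r ∈ Icc 1 t, M / r ^ 2 : ℕ) : ℝ) ≤ M * 2 := by
    refine le_trans ?_ (mul_le_mul_of_nonneg_left (LU.p_SUM.1 t) M.cast_nonneg)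
    rw [Nat.cast_sum, mul_sum]
    refine sum_le_sum fun r _ => Nat.cast_div_le.trans (le_of_eq ?_)
    rw [Nat.cast_pow, mul_one_div]
  have h3 : ∑ r ∈ Icc 1 t, M / r ^ 2 ≤ M * 2 := by exact_mod_cast h2
  omega

theorem wz_low {s t c : ℕ} (hs : s < t) (hc : dst y s t ≤ c) :
    M / (c + 1) ^ 2 ≤ wz y M t (y s) := by
  have h : ∃ r < t, y r = y s := ⟨s, hs, rfl⟩
  rw [wz, if_pos h]
  refine Nat.div_le_div_left (Nat.pow_le_pow_left ?_ 2) (pow_pos (rk_pos y h) 2)
  refine le_trans (card_le_card (t := insert (y s) ((Ioc s t).image y)) fun v hv => ?_)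
    ((card_insert_le _ _).trans (Nat.succ_le_succ hc))
  obtain ⟨r, hr, rfl⟩ := mem_image.1 hv
  have h1 := le_la y hs rfl
  have h2 := mem_Ico.1 hr
  rcases Nat.eq_or_lt_of_le (h1.trans h2.1) with e | e
  · exact e ▸ mem_insert_self _ _
  · exact mem_insert_of_mem (mem_image_of_mem _ (mem_Ioc.2 ⟨e, h2.2.le⟩))

end

/-- The items of tier `j` in the item `G` of tier `j + 1`. -/
noncomputable def IG (j : ℕ) (G : ℤ) : Finset ℤ :=
  Ico (G * 2 ^ (sg (j + 1) - sg j)) ((G + 1) * 2 ^ (sg (j + 1) - sg j))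

theorem it_succ (j : ℕ) (z : ℤ) : it (j + 1) z = it j z / 2 ^ (sg (j + 1) - sg j) := by
  rw [it, it, Int.ediv_ediv_of_nonneg (by positivity), ← pow_add,
    Nat.add_sub_cancel' (NU.Avg.sg_mono j.le_succ)]

theorem mem_IG {j : ℕ} {G c : ℤ} : c ∈ IG j G ↔ c / 2 ^ (sg (j + 1) - sg j) = G := by
  have hp : (0 : ℤ) < 2 ^ (sg (j + 1) - sg j) := by positivity
  rw [IG, mem_Ico, ← Int.le_ediv_iff_mul_le hp, ← Int.ediv_lt_iff_lt_mul hp]
  omega

theorem it_mem {j : ℕ} {G z : ℤ} : it j z ∈ IG j G ↔ it (j + 1) z = G := by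
  rw [mem_IG, it_succ]

theorem card_IG (j : ℕ) (G : ℤ) : #(IG j G) ≤ 2 ^ sg (j + 1) := by
  rw [IG, Int.card_Ico, show (G + 1) * 2 ^ (sg (j + 1) - sg j) - G * 2 ^ (sg (j + 1) - sg j) =
    ((2 ^ (sg (j + 1) - sg j) : ℕ) : ℤ) by push_cast; ring, Int.toNat_natCast]
  exact Nat.pow_le_pow_right two_pos (Nat.sub_le _ _)

theorem Icc_sub {j : ℕ} {G c c' : ℤ} (h : c ∈ IG j G) (h' : c' ∈ IG j G) : Icc c c' ⊆ IG j G :=
  fun e he => by
    have := mem_Icc.1 he
    rw [IG, mem_Ico] at *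
    omega

section
variable (y : ℕ → ℤ) (S : Finset ℤ) (m A : ℕ)

/-- The weight of the keys of an item. -/
noncomputable def Wc (j t : ℕ) (c : ℤ) : ℕ :=
  ∑ z ∈ S.filter fun z => it j z = c, wz y (2 ^ (3 * A)) t z

/-- The later accesses to an item. -/
def Nx (j t : ℕ) (c : ℤ) : Set ℕ := {r | t ≤ r ∧ r < m ∧ it j (y r) = c}

/-- The weight of an item, taken at its next access. -/
noncomputable def om (j t : ℕ) (c : ℤ) : ℕ :=
  2 ^ (3 * A - 3 * sg (j + 1)) +
    if (Nx y m j t c).Nonempty then Wc y S A j (sInf (Nx y m j t c)) c else 0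

/-- The weight of all items in an item of the next tier. -/
noncomputable def SG (j t : ℕ) (G : ℤ) : ℕ := ∑ c ∈ IG j G, om y S m A j t c

theorem om_low (j t : ℕ) (c : ℤ) : 2 ^ (3 * A - 3 * sg (j + 1)) ≤ om y S m A j t c :=
  Nat.le_add_right _ _

theorem om_pos (j t : ℕ) (c : ℤ) : 1 ≤ om y S m A j t c :=
  Nat.one_le_two_pow.trans (om_low y S m A j t c)

theorem om_le (j t : ℕ) (c : ℤ) : om y S m A j t c ≤ 3 * 2 ^ (3 * A) := by
  have h1 : 2 ^ (3 * A - 3 * sg (j + 1)) ≤ 2 ^ (3 * A) :=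
    Nat.pow_le_pow_right two_pos (Nat.sub_le _ _)
  have h2 := wz_sum y (2 ^ (3 * A)) (S.filter fun z => it j z = c) (sInf (Nx y m j t c))
  unfold om Wc
  split_ifs <;> omega

theorem om_step (j t : ℕ) (c : ℤ) (h : c ≠ it j (y t)) :
    om y S m A j (t + 1) c = om y S m A j t c := by
  have e : Nx y m j (t + 1) c = Nx y m j t c := by
    ext r
    refine ⟨fun a => ⟨by have := a.1; omega, a.2⟩, fun a => ⟨?_, a.2⟩⟩
    rcases Nat.eq_or_lt_of_le a.1 with e | e
    · exact absurd (e ▸ a.2.2).symm h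
    · exact e
  rw [om, om, e]

theorem om_le_SG {j : ℕ} (t : ℕ) {G c : ℤ} (h : c ∈ IG j G) :
    om y S m A j t c ≤ SG y S m A j t G :=
  single_le_sum (f := fun c => om y S m A j t c) (fun _ _ => Nat.zero_le _) h

theorem sm_le_SG {j : ℕ} (t : ℕ) {G c c' : ℤ} (h : c ∈ IG j G) (h' : c' ∈ IG j G) :
    ∑ e ∈ Icc c c', om y S m A j t e ≤ SG y S m A j t G :=
  sum_le_sum_of_subset (Icc_sub h h')

theorem SG_le {j : ℕ} (hj : sg (j + 1) ≤ A) (t : ℕ) (G : ℤ) :
    SG y S m A j t G ≤ 2 ^ (3 * A - 2 * sg (j + 1)) + om y S m A (j + 1) t G := by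
  have h1 : #(IG j G) * 2 ^ (3 * A - 3 * sg (j + 1)) ≤ 2 ^ (3 * A - 2 * sg (j + 1)) := by
    refine (Nat.mul_le_mul_right _ (card_IG j G)).trans (le_of_eq ?_)
    rw [← pow_add]
    congr 1
    omega
  have h2 : ∑ c ∈ IG j G, (if (Nx y m j t c).Nonempty then Wc y S A j (sInf (Nx y m j t c)) c
      else 0) ≤ om y S m A (j + 1) t G := by
    have hs : ∀ c ∈ IG j G, Nx y m j t c ⊆ Nx y m (j + 1) t G := fun c hc r hr =>
      ⟨hr.1, hr.2.1, it_mem.1 (hr.2.2 ▸ hc)⟩
    by_cases hG : (Nx y m (j + 1) t G).Nonempty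
    · rw [om, if_pos hG]
      refine le_trans (sum_le_sum (g := fun c => Wc y S A j (sInf (Nx y m (j + 1) t G)) c)
        fun c hc => ?_) (le_trans (le_of_eq ?_) (Nat.le_add_left _ _))
      · split_ifs with h
        · refine sum_le_sum fun z hz => wz_anti y _ (Nat.sInf_le (hs c hc (Nat.sInf_mem h)))
            fun r a b e => ?_
          have a1 := (Nat.sInf_mem hG).1
          have a2 := (Nat.sInf_mem h).2.1
          have : sInf (Nx y m j t c) ≤ r :=
            Nat.sInf_le ⟨by omega, by omega, e ▸ (mem_filter.1 hz).2⟩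
          omega
        · exact Nat.zero_le _
      · unfold Wc
        rw [sum_fiberwise_eq_sum_filter]
        exact sum_congr (filter_congr fun z _ => it_mem) fun _ _ => rfl
    · rw [sum_eq_zero fun c hc => if_neg fun h => hG (h.mono (hs c hc))]
      exact Nat.zero_le _
  unfold SG
  conv_lhs => unfold om
  rw [sum_add_distrib, sum_const, smul_eq_mul]
  omega

theorem SG_lt {j : ℕ} (hj : sg (j + 1) ≤ A) (t : ℕ) (G : ℤ) :
    SG y S m A j t G < 2 ^ (3 * A + 3) := by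
  have h1 := SG_le y S m A hj t G
  have h2 := om_le y S m A (j + 1) t G
  have h3 : 2 ^ (3 * A - 2 * sg (j + 1)) ≤ 2 ^ (3 * A) :=
    Nat.pow_le_pow_right two_pos (Nat.sub_le _ _)
  have h4 : 1 ≤ 2 ^ (3 * A) := Nat.one_le_two_pow
  rw [pow_add]
  omega

/-- The item of the next tier is heavy. -/
def Q (j t : ℕ) (G : ℤ) : Prop := 2 ^ (3 * A - 2 * sg (j + 1)) ≤ om y S m A (j + 1) t G

theorem Q_of {j s τ t : ℕ} {G : ℤ} (hj : sg (j + 1) ≤ A) (h1 : 1 ≤ j) (hS : y s ∈ S) (hs : s < τ)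
    (ht : τ ≤ t) (hm : t < m) (e1 : it (j + 1) (y t) = G) (e2 : it (j + 1) (y s) = G)
    (hd : dst y s t ≤ cc j) : Q y S m A j τ G := by
  have hG : (Nx y m (j + 1) τ G).Nonempty := ⟨t, ht, hm, e1⟩
  have a1 := (Nat.sInf_mem hG).1
  have a2 : sInf (Nx y m (j + 1) τ G) ≤ t := Nat.sInf_le ⟨ht, hm, e1⟩
  have a3 : dst y s (sInf (Nx y m (j + 1) τ G)) ≤ cc j :=
    le_trans (card_le_card (image_subset_image (Ioc_subset_Ioc_right a2))) hd
  have a4 := wz_low y (2 ^ (3 * A)) (hs.trans_le a1) a3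
  have a5 : cc j + 1 ≤ 2 ^ sg (j + 1) := by
    obtain ⟨i, rfl⟩ := Nat.exists_eq_add_of_le' h1
    have b1 : 1 ≤ 2 ^ i := Nat.one_le_two_pow
    have b2 : 2 ^ (sg (i + 1) + 1) ≤ 2 ^ sg (i + 1 + 1) :=
      Nat.pow_le_pow_right two_pos (by simp only [sg, pow_succ]; omega)
    have b3 : 1 ≤ 2 ^ sg (i + 1) := Nat.one_le_two_pow
    rw [pow_succ] at b2
    rw [cc]
    omega
  have a6 : 2 ^ (3 * A - 2 * sg (j + 1)) ≤ 2 ^ (3 * A) / (cc j + 1) ^ 2 := by
    rw [Nat.le_div_iff_mul_le (by positivity)]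
    refine (Nat.mul_le_mul_left _ (Nat.pow_le_pow_left a5 2)).trans (le_of_eq ?_)
    rw [← pow_mul, ← pow_add]
    congr 1
    omega
  rw [Q, om, if_pos hG]
  refine le_trans (a6.trans (a4.trans ?_)) (Nat.le_add_left _ _)
  exact single_le_sum (f := fun z => wz y (2 ^ (3 * A)) _ z) (fun _ _ => Nat.zero_le _)
    (mem_filter.2 ⟨hS, e2⟩)

/-- The logarithmic ratio. -/
noncomputable def B (j t : ℕ) (z : ℤ) : ℕ :=
  Nat.log 2 (SG y S m A j t (it (j + 1) z)) - Nat.log 2 (om y S m A j t (it j z))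

theorem log_low (j t : ℕ) (c : ℤ) : 3 * A - 3 * sg (j + 1) ≤ Nat.log 2 (om y S m A j t c) :=
  Nat.le_log_of_pow_le one_lt_two (om_low y S m A j t c)

theorem chain (t : ℕ) (z : ℤ) (k : ℕ) (hk : sg k ≤ A) :
    ∑ j ∈ range k, B y S m A j t z + Nat.log 2 (om y S m A 0 t (it 0 z)) ≤
      Nat.log 2 (om y S m A k t (it k z)) + k +
        ∑ j ∈ range k, if Q y S m A j t (it (j + 1) z) then 0 else 12 * (sg j + 1) := by
  induction k with
  | zero => simp
  | succ k ih =>
    have h0 := ih ((NU.Avg.sg_mono k.le_succ).trans hk)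
    have h1 := Nat.log_mono_right (b := 2) (om_le_SG y S m A t (it_mem (j := k) (z := z).2 rfl))
    rw [sum_range_succ, sum_range_succ, B]
    split_ifs with h
    · have h2 := SG_le y S m A hk t (it (k + 1) z)
      have h3 : Nat.log 2 (SG y S m A k t (it (k + 1) z)) ≤
          Nat.log 2 (om y S m A (k + 1) t (it (k + 1) z) * 2) :=
        Nat.log_mono_right (by rw [Q] at h; omega)
      rw [Nat.log_mul_base one_lt_two (by have := om_pos y S m A (k + 1) t (it (k + 1) z); omega)]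
        at h3
      omega
    · have h2 := Nat.log_lt_of_lt_pow' (by omega) (SG_lt y S m A hk t (it (k + 1) z))
      have h3 := log_low y S m A (k + 1) t (it (k + 1) z)
      have h4 : sg (k + 1 + 1) ≤ 4 * sg k + 2 := by
        rcases k with _ | k
        · simp [sg]
        · simp only [sg, pow_succ]
          omega
      omega

theorem chain' (t : ℕ) (z : ℤ) (k : ℕ) (hk : sg k ≤ A) :
    ∑ j ∈ range k, B y S m A j t z ≤ k + 4 +
      ∑ j ∈ range k, if Q y S m A j t (it (j + 1) z) then 0 else 12 * (sg j + 1) := by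
  have h0 := chain y S m A t z k hk
  have h1 := log_low y S m A 0 t (it 0 z)
  have h2 : Nat.log 2 (om y S m A k t (it k z)) < 3 * A + 2 := by
    refine Nat.log_lt_of_lt_pow' (by omega) ((om_le y S m A k t _).trans_lt ?_)
    have h4 : 1 ≤ 2 ^ (3 * A) := Nat.one_le_two_pow
    rw [pow_add]
    omega
  have h3 : sg (0 + 1) = 1 := rfl
  omega

theorem up_eq {j : ℕ} {a b : ℤ} (h : it j a = it j b) : it (j + 1) a = it (j + 1) b := by
  rw [it_succ, it_succ, h]

theorem cnt_back (hS : ∀ i < m, y i ∈ S) {j : ℕ} (hj : sg (j + 1) ≤ A) :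
    #((range m).filter fun s => ¬ Q y S m A j s (it (j + 1) (y s))) ≤ jmp y j m := by
  refine card_le_card fun s hs => ?_
  obtain ⟨h1, h2⟩ := mem_filter.1 hs
  refine mem_filter.2 ⟨h1, fun ⟨a, r, b, c, d⟩ => h2 ?_⟩
  have h3 := mem_range.1 h1
  exact Q_of y S m A hj a (hS r (b.trans h3)) b le_rfl h3 rfl (up_eq c) d

theorem cnt_fwd (hS : ∀ i < m, y i ∈ S) {j : ℕ} (hj : sg (j + 1) ≤ A) :
    #((range m).filter fun s => ¬ Q y S m A j (s + 1) (it (j + 1) (y s))) ≤ #S + jmp y j m := by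
  rw [← card_filter_add_card_filter_not (fun s => (Nx y m j (s + 1) (it j (y s))).Nonempty),
    add_comm]
  refine Nat.add_le_add ?_ ?_
  · refine card_le_card_of_injOn y (fun s hs => ?_) fun s hs s' hs' e => ?_
    · exact hS s (mem_range.1 (mem_filter.1 (mem_filter.1 hs).1).1)
    · have a := mem_filter.1 hs
      have b := mem_filter.1 hs'
      rcases lt_trichotomy s s' with h | h | h
      · exact absurd ⟨s', h, mem_range.1 (mem_filter.1 b.1).1, by rw [e]⟩ a.2
      · exact h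
      · exact absurd ⟨s, h, mem_range.1 (mem_filter.1 a.1).1, by rw [e]⟩ b.2
  · refine card_le_card_of_injOn (fun s => sInf (Nx y m j (s + 1) (it j (y s))))
      (fun s hs => ?_) fun s hs s' hs' e => ?_
    · obtain ⟨a, b⟩ := mem_filter.1 hs
      obtain ⟨a1, a2⟩ := mem_filter.1 a
      obtain ⟨b1, b2, b3⟩ := Nat.sInf_mem b
      refine mem_filter.2 ⟨mem_range.2 b2, fun ⟨c, r, c1, c2, c3⟩ => a2 ?_⟩
      have c4 : r ≤ s := by
        by_contra hc
        have : sInf (Nx y m j (s + 1) (it j (y s))) ≤ r :=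
          Nat.sInf_le ⟨by omega, c1.trans b2, c2.trans b3⟩
        exact absurd c1 (not_lt.2 this)
      exact Q_of y S m A hj c (hS s (mem_range.1 a1)) s.lt_succ_self b1 b2 (up_eq b3) rfl
        (le_trans (card_le_card (image_subset_image (Ioc_subset_Ioc_left c4))) c3)
    · have key : ∀ u v, u < v → v < m → (Nx y m j (u + 1) (it j (y u))).Nonempty →
          (Nx y m j (v + 1) (it j (y v))).Nonempty →
          sInf (Nx y m j (u + 1) (it j (y u))) ≠ sInf (Nx y m j (v + 1) (it j (y v))) := by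
        intro u v h hv a b e
        obtain ⟨-, -, a3⟩ := Nat.sInf_mem a
        obtain ⟨b1, -, b3⟩ := Nat.sInf_mem b
        have : sInf (Nx y m j (u + 1) (it j (y u))) ≤ v :=
          Nat.sInf_le ⟨h, hv, by rw [← b3, ← e, a3]⟩
        omega
      have a := mem_filter.1 hs
      have b := mem_filter.1 hs'
      rcases lt_trichotomy s s' with h | h | h
      · exact absurd e (key s s' h (mem_range.1 (mem_filter.1 b.1).1) a.2 b.2)
      · exact h
      · exact absurd e.symm (key s' s h (mem_range.1 (mem_filter.1 a.1).1) b.2 a.2)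

/-- The budget. -/
theorem budget (n T : ℕ) (hS : ∀ i < m, y i ∈ S) (hn : #S ≤ n) (hA : sg (T + 1) ≤ A) :
    ∑ s ∈ range m, ∑ j ∈ range (T + 1), (B y S m A j s (y s) + B y S m A j (s + 1) (y s)) ≤
      2 * (m * (T + 5)) + 24 * MM y n m T := by
  have h1 : ∀ (p : ℕ → ℕ → Prop), ∑ s ∈ range m, ∑ j ∈ range (T + 1),
      (if p j s then 0 else 12 * (sg j + 1)) =
      ∑ j ∈ range (T + 1), 12 * ((sg j + 1) * #((range m).filter fun s => ¬ p j s)) := fun p => by
    rw [sum_comm]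
    refine sum_congr rfl fun j _ => ?_
    rw [sum_ite, sum_const_zero, zero_add, sum_const, smul_eq_mul]
    ring
  have h2 := sum_le_sum (s := range m) fun s _ => chain' y S m A s (y s) (T + 1) hA
  have h3 := sum_le_sum (s := range m) fun s _ => chain' y S m A (s + 1) (y s) (T + 1) hA
  rw [sum_add_distrib, sum_const, card_range, smul_eq_mul] at h2 h3
  rw [h1 fun j s => Q y S m A j s (it (j + 1) (y s))] at h2
  rw [h1 fun j s => Q y S m A j (s + 1) (it (j + 1) (y s))] at h3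
  have h4 : ∑ j ∈ range (T + 1), 12 * ((sg j + 1) *
      #((range m).filter fun s => ¬ Q y S m A j s (it (j + 1) (y s)))) ≤ 12 * MM y n m T := by
    rw [MM, mul_sum]
    refine sum_le_sum fun j hj => Nat.mul_le_mul_left _ (Nat.mul_le_mul_left _ ?_)
    have := cnt_back y S m A hS
      ((NU.Avg.sg_mono (show j + 1 ≤ T + 1 from mem_range.1 hj)).trans hA)
    omega
  have h5 : ∑ j ∈ range (T + 1), 12 * ((sg j + 1) *
      #((range m).filter fun s => ¬ Q y S m A j (s + 1) (it (j + 1) (y s)))) ≤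
      12 * MM y n m T := by
    rw [MM, mul_sum]
    refine sum_le_sum fun j hj => Nat.mul_le_mul_left _ (Nat.mul_le_mul_left _ ?_)
    have := cnt_fwd y S m A hS
      ((NU.Avg.sg_mono (show j + 1 ≤ T + 1 from mem_range.1 hj)).trans hA)
    omega
  simp only [sum_add_distrib]
  have e : m * (T + 1 + 4) = m * (T + 5) := rfl
  omega

end

end Pool.Agent.P.MP_119182_lc.ADBud

namespace Pool.Agent.P.MP_119182_lc.AD

open Finset
open scoped Classical
open NU (Run mr)
open LU (key tch up low isl Nx within beyond LK)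

theorem p_BUD :
    S_BUD := by
  refine ⟨24, fun T n d hd hL hR hT => ?_⟩
  have hp : ∀ j, (0 : ℤ) < 2 ^ NU.sg j := fun j => by positivity
  have hA : NU.sg (T + 1) = 2 ^ T := rfl
  have h1 : 1 ≤ 2 ^ T := Nat.one_le_two_pow
  refine ⟨⟨T, NU.sg (T + 1) + (3 * NU.sg (T + 1) + 2), NU.it,
    ADBud.om d.x d.keys d.m (NU.sg (T + 1)),
    fun j t z => ADBud.SG d.x d.keys d.m (NU.sg (T + 1)) j t (NU.it (j + 1) z)⟩, rfl, ?_,
    ⟨hd, by omega, fun j a b h => Int.ediv_le_ediv (hp j) h, fun j a b h => ADBud.up_eq h, fun a b h => ?_,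
      fun a b ha hb => ?_, ADBud.om_pos _ _ _ _, fun j t c _ h => ADBud.om_step _ _ _ _ j t c h,
      fun j t => ?_, fun j t z a b _ _ ha hb =>
        ADBud.sm_le_SG _ _ _ _ t (ADBud.it_mem.2 ha) (ADBud.it_mem.2 hb)⟩, ?_⟩
  · change NU.sg (T + 1) + (3 * NU.sg (T + 1) + 2) ≤ _
    omega
  · simpa [NU.it, NU.sg] using h
  · change NU.it (T + 1) a = NU.it (T + 1) b
    rw [NU.it, NU.it, Int.ediv_eq_zero_of_lt (hL.trans ha.1) (ha.2.trans_lt hT),
      Int.ediv_eq_zero_of_lt (hL.trans hb.1) (hb.2.trans_lt hT)]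
  · change ∑ e ∈ Icc (NU.it j d.L) (NU.it j d.R), ADBud.om d.x d.keys d.m (NU.sg (T + 1)) j t e <
      2 ^ (NU.sg (T + 1) + (3 * NU.sg (T + 1) + 2))
    have a1 := sum_le_card_nsmul (Icc (NU.it j d.L) (NU.it j d.R)) _ _
      fun e _ => ADBud.om_le d.x d.keys d.m (NU.sg (T + 1)) j t e
    have a2 : 0 ≤ NU.it j d.L := Int.ediv_nonneg hL (hp j).le
    have a3 : NU.it j d.R ≤ d.R := Int.ediv_le_self _ (by omega)
    have a4 : #(Icc (NU.it j d.L) (NU.it j d.R)) ≤ 2 ^ NU.sg (T + 1) := by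
      rw [Int.card_Icc, Int.toNat_le]
      push_cast
      omega
    refine a1.trans_lt ((Nat.mul_le_mul_right _ a4).trans_lt ?_)
    rw [pow_add]
    refine Nat.mul_lt_mul_of_pos_left ?_ (by positivity)
    have a5 : 1 ≤ 2 ^ (3 * NU.sg (T + 1)) := Nat.one_le_two_pow
    rw [pow_add]
    omega
  · have a1 := ADBud.budget d.x d.keys d.m (NU.sg (T + 1)) n T
      (fun i hi => mem_Ioo.2 (hd.step i hi).mem) (by rw [Run.keys, Int.card_Ioo]; omega) le_rfl
    have a2 : NU.MM d.x n d.m T ≤ NU.MM d.x n d.m (T + 1) := by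
      rw [NU.MM, NU.MM, sum_range_succ _ (T + 1)]
      exact Nat.le_add_right _ _
    simp only [sum_add_distrib] at a1
    refine le_trans a1 ?_
    have a3 : d.m * (T + 5) ≤ d.m * (5 * (T + 1)) := Nat.mul_le_mul_left _ (by omega)
    rw [mul_left_comm] at a3
    omega

end Pool.Agent.P.MP_119182_lc.AD
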