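import Pool.Agent.P.MP_119182_lc.AD.Iface

/-! Step CRS. -/

set_option autoImplicit false

namespace Pool.Agent.P.MP_119182_lc.AD

open Finset
open scoped Classical
open NU (Run mr)
open LU (key tch up low isl Nx within beyond LK)

theorem p_CRS (hBD : S_BD) (hFZ : S_FZ) (hLINK : LU.S_LINK) :
    S_CRS := by
  intro d S h
  rw [← card_range d.m, ← card_range (S.J + 1), ← card_product]
  have m : ∀ p ∈ (RL d).filter fun p => crs d S p.1 p.2, rl d p.1 p.2 ∧ crs d S p.1 p.2 :=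
    fun p hp => by
      obtain ⟨h1, h2⟩ := mem_filter.1 hp
      unfold RL at h1
      exact ⟨(mem_filter.1 h1).2, h2⟩
  have f : ∀ t u, rl d t u → pt d (d.x t) ∧ pt d (low d t u) ∧ pt d (d.rp t u) ∧
      d.x t < low d t u ∧ low d t u < d.rp t u := fun t u a => by
    obtain ⟨⟨a1, a2, a3⟩, a4⟩ := a
    obtain ⟨b1, -, -, -, -, b2⟩ := (hLINK d h.ok t a1).1 u a4
    have k := (hFZ d h.ok).2.2.2.2.2.2.1 t a1
    obtain ⟨-, c2, -, c4⟩ := (hFZ d h.ok).2.2.2.2.2.1 t u a1.le a2.1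
    rcases b2 with b2 | b2
    · exact ⟨⟨k.1.le, k.2.le⟩, ⟨b1.1.1.le, b1.1.2.le⟩, c2, b2.1, b2.2.1.trans c4⟩
    · exact absurd (b2.2.1.trans b2.1) (not_lt.2 a3.le)
  have k : ∀ t u u', rl d t u → crs d S t u → rl d t u' → u < u' →
      bj d S t (low d t u) < bj d S t (low d t u') := fun t u u' a b a' lt => by
    obtain ⟨c1, c2, c3, c4, c5⟩ := f t u a
    obtain ⟨-, e2, -, -, -⟩ := f t u' a'
    have e := (hFZ d h.ok).2.2.2.2.2.2.2 t u u' a a' lt
    have g1 := (hBD d S h).2.2.2 _ _ _ c1 c3 c4.le c5.le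
    have g2 := (hBD d S h).2.2.2 _ _ _ c1 e2 (c4.trans c5).le e
    unfold crs at b
    unfold bj at b ⊢
    omega
  refine card_le_card_of_injOn (fun p => (p.1, bj d S p.1 (low d p.1 p.2))) (fun p hp => ?_)
    fun p hp q hq e => ?_
  · obtain ⟨a, -⟩ := m p hp
    obtain ⟨c1, c2, -⟩ := f _ _ a
    exact mem_coe.2 (mem_product.2 ⟨mem_range.2 a.1.1,
      mem_range.2 (Nat.lt_succ_of_le ((hBD d S h).2.2.1 _ _ c1 c2).2.1)⟩)
  · obtain ⟨a, b⟩ := m p hp
    obtain ⟨a', b'⟩ := m q hq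
    obtain ⟨e1, e2⟩ := Prod.mk.inj e
    refine Prod.ext e1 ?_
    rw [← e1] at a' b' e2
    rcases lt_trichotomy p.2 q.2 with l | l | l
    · exact absurd e2 (k _ _ _ a b a' l).ne
    · exact l
    · exact absurd e2 (k _ _ _ a' b' a l).ne'

end Pool.Agent.P.MP_119182_lc.AD
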