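import Pool.Agent.P.MP_119182_lc.AD.Iface

/-! Step FF. -/

set_option autoImplicit false

namespace Pool.Agent.P.MP_119182_lc.AD

open Finset
open scoped Classical
open NU (Run mr)
open LU (key tch up low isl Nx within beyond LK)

theorem p_FF (hBD : S_BD) :
    S_FF := by
  intro d S h
  obtain ⟨-, -, b3, b4⟩ := hBD d S h
  have f1 : ∀ j t a b a' b', a' ≤ a → b ≤ b' → sm S j t a b ≤ sm S j t a' b' :=
    fun j t a b a' b' h1 h2 => sum_le_sum_of_subset (Icc_subset_Icc h1 h2)
  have f2 : ∀ j t a b c, a ≤ c → c ≤ b → S.om j t c ≤ sm S j t a b :=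
    fun j t a b c h1 h2 =>
      single_le_sum (f := fun e => S.om j t e) (fun _ _ => Nat.zero_le _) (mem_Icc.2 ⟨h1, h2⟩)
  have f5 : 1 ≤ S.W := by
    have a1 := f2 0 0 _ _ _ le_rfl (h.mono 0 h.lr.le)
    have a2 := h.pos 0 0 (S.cell 0 d.L)
    have a3 := h.ht 0 0
    rcases Nat.eq_zero_or_pos S.W with e | e
    · rw [e, pow_zero] at a3
      omega
    · exact e
  have f4 : ∀ j t c c', S.cell j d.L ≤ c → c' ≤ S.cell j d.R →
      Nat.log 2 (sm S j t c c') < S.W := fun j t c c' h1 h2 =>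
    Nat.log_lt_of_lt_pow' (by omega) ((f1 j t _ _ _ _ h1 h2).trans_lt (h.ht j t))
  have f6 : ∀ t a b, pt d a → pt d b → a < b → bd S a b * S.W ≤ F S t a b ∧
      F S t a b < (bd S a b + 1) * S.W ∧ F S t a b < ht S := by
    intro t a b ha hb _
    have a1 := f4 (bd S a b) t _ _ (h.mono _ ha.1) (h.mono _ hb.2)
    have a2 : F S t a b < (bd S a b + 1) * S.W := by
      rw [F, add_mul, one_mul]
      omega
    exact ⟨Nat.le_add_right _ _, a2,
      a2.trans_le (Nat.mul_le_mul_right _ (Nat.succ_le_succ (b3 a b ha hb).2.1))⟩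
  refine ⟨f1, f2, ?_, f4, f5, f6, ?_, ?_⟩
  · intro j t a b a' b' a'' b'' h1 h2 h3 h4 h5
    have hd : Disjoint (Icc a b) (Icc a' b') := by
      rw [disjoint_left]
      intro e he he'
      rw [mem_Icc] at he he'
      omega
    rw [sm, sm, ← sum_union hd]
    exact sum_le_sum_of_subset (union_subset (Icc_subset_Icc h1 h4) (Icc_subset_Icc h2 h5))
  · intro t a b a' b' ha' hb' h1 h2 h3
    have ha : pt d a := ⟨ha'.1.trans h1, (h2.le.trans h3).trans hb'.2⟩
    have hb : pt d b := ⟨(ha'.1.trans h1).trans h2.le, h3.trans hb'.2⟩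
    have e1 := b4 a' a b' ha' hb' h1 (h2.le.trans h3)
    have e2 := b4 a b b' ha hb' h2.le h3
    have e3 : bd S a b ≤ bd S a' b' := by omega
    rcases e3.eq_or_lt with e | e
    · rw [F, F, ← e]
      exact Nat.add_le_add_left (Nat.log_mono_right (f1 _ _ _ _ _ _ (h.mono _ h1) (h.mono _ h3))) _
    · exact ((f6 t a b ha hb h2).2.1.le.trans (Nat.mul_le_mul_right _ e)).trans
        (f6 t a' b' ha' hb' (by omega)).1
  · intro j s t c c' h1 h2 h3
    have key : ∀ e, c ≤ e → e ≤ c' → S.om j t e = S.om j s e := by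
      intro e he he'
      induction t, h1 using Nat.le_induction with
      | base => rfl
      | succ t h1 ih =>
        have a1 := h3 t h1 (Nat.lt_succ_self t)
        rw [h.keep j t e (by omega) (by omega)]
        exact ih (by omega) fun r hr hr' => h3 r hr (by omega)
    exact ⟨sum_congr rfl fun e he => key e (mem_Icc.1 he).1 (mem_Icc.1 he).2, key⟩

end Pool.Agent.P.MP_119182_lc.AD
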