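import Pool.Agent.P.MP_119182_lc.AD.Base
import Pool.Agent.P.MP_119182_lc.NU.Avg
import Pool.Agent.P.MP_119182_lc.LW.IfaceF

/-! The weights for dyadic cells of doubly exponential sizes, and the end. -/

set_option autoImplicit false

namespace Pool.Agent.P.MP_119182_lc.AD

open Finset
open scoped Classical
open NU (Run mr)
open LU (key tch up low isl Nx within beyond LK)

-- deps:
def S_BUD : Prop :=
  ∃ C : ℕ, ∀ (T n : ℕ) (d : Run), d.OK → 0 ≤ d.L → d.R = d.L + n + 1 →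
    d.R < 2 ^ NU.sg (T + 1) → ∃ S : Sys, S.J = T ∧ S.W ≤ C * 2 ^ T ∧ OK d S ∧
      BB0 d S + BB1 d S ≤ C * (d.m * (T + 1) + NU.MM d.x n d.m (T + 1))

-- deps: ABS BUD LW.LK NU.ALGA NU.BRG NU.TURN
/-- The end statement. -/
def S_FIN : Prop :=
  ∃ C : ℕ, ∀ (n m : ℕ) (T : BT) (a : ℕ → ℕ), T.keys = List.range' 1 n →
    (∀ i < m, 1 ≤ a i ∧ a i ≤ n) → (n : ℝ) * max 1 (Real.logb 2 n) ≤ m →
    (cost T ((List.range m).map a) : ℝ) ≤
      C * (unified n m a + m * ((Nat.log 2 (Nat.log 2 n) : ℝ) + 1) ^ 8)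

end Pool.Agent.P.MP_119182_lc.AD
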