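import Pool.Agent.P.MP_119182_lc.AD.Iface
import Pool.Agent.P.MP_119182_lc.AD.IfaceB

/-! Step FIN. -/

set_option autoImplicit false

namespace Pool.Agent.P.MP_119182_lc.AD

open Finset
open scoped Classical
open NU (Run mr)
open LU (key tch up low isl Nx within beyond LK)

theorem fin_T {n T : ℕ} (hn : 1 ≤ n) (h : ∀ t < T, NU.cc t < n + 2) :
    T + 1 ≤ 4 * (Nat.log 2 (Nat.log 2 n) + 1) := by
  rcases T with _ | _ | T
  · omega
  · omega
  have h2 : 2 ^ 2 ^ T ≤ n * 2 := by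
    have : 2 ^ 2 ^ T < n + 2 := h (T + 1) (by omega)
    omega
  have h3 : 2 ^ T ≤ Nat.log 2 n + 1 := by
    have := Nat.le_log_of_pow_le (b := 2) (by norm_num) h2
    rwa [Nat.log_mul_base (by norm_num) (by omega)] at this
  have h4 : Nat.log 2 n < 2 ^ (Nat.log 2 (Nat.log 2 n) + 1) :=
    Nat.lt_pow_succ_log_self (by norm_num) _
  have h5 : T ≤ Nat.log 2 (Nat.log 2 n) + 1 :=
    (Nat.pow_le_pow_iff_right (a := 2) (by norm_num)).1 (by omega)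
  omega

theorem fin_size {C T W : ℕ} (h : W ≤ C * 2 ^ T) :
    Nat.size ((T + 1) * W) + 1 ≤ (C + 2) * (T + 1) := by
  have h1 : T + 1 ≤ 2 ^ T := Nat.lt_two_pow_self
  have h2 : C < 2 ^ C := Nat.lt_two_pow_self
  have h3 : 0 < 2 ^ T := by positivity
  have h4 : W < 2 ^ C * 2 ^ T := lt_of_le_of_lt h (Nat.mul_lt_mul_of_pos_right h2 h3)
  have h5 : (T + 1) * W < 2 ^ (T + (C + T)) := by
    rw [pow_add, pow_add]
    exact lt_of_le_of_lt (Nat.mul_le_mul_right _ h1) (Nat.mul_lt_mul_of_pos_left h4 h3)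
  have h6 := Nat.size_le.2 h5
  nlinarith

theorem p_FIN (hABS : S_ABS)
    (hBUD : S_BUD) (hLK : LW.S_LK) (hALGA : NU.S_ALGA) (hBRG : NU.S_BRG)
    (hTURN : NU.S_TURN) : S_FIN := by
  obtain ⟨C, hC⟩ := hABS
  obtain ⟨C2, hB⟩ := hBUD
  obtain ⟨C3, hC3⟩ : ∃ C3, C3 = C * (12 * (4 * (C2 + 2)) ^ 7 + 5 * C2) := ⟨_, rfl⟩
  refine ⟨200 * C3 + 60, fun n m T a h1 h3 h4 => ?_⟩
  rcases Nat.eq_zero_or_pos n with rfl | hn
  · rcases Nat.eq_zero_or_pos m with rfl | hm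
    · simp [cost, unified]
    · have := h3 0 hm
      omega
  have h2 : ∃ t, n + 2 ≤ NU.cc t := ⟨n + 2, by
    have a1 : n + 1 < 2 ^ (n + 1) := Nat.lt_two_pow_self
    have a2 : 2 ^ (n + 1) < 2 ^ 2 ^ (n + 1) := Nat.lt_two_pow_self
    rw [NU.cc, NU.sg]
    omega⟩
  have h5 := Nat.find_spec h2
  have h6 : ∀ t < Nat.find h2, NU.cc t < n + 2 := fun t ht => not_le.1 (Nat.find_min h2 ht)
  obtain ⟨σ, s1, s2⟩ := NU.avg hn h3 h4 h5 h6
  have k1 := fin_T hn h6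
  generalize Nat.find h2 = J at h5 h6 s1 s2 k1
  have s3 := NU.Avg.cc_top J
  have k4 : n ≤ m := by
    have : (n : ℝ) * 1 ≤ n * max 1 (Real.logb 2 n) :=
      mul_le_mul_of_nonneg_left (le_max_left _ _) (Nat.cast_nonneg _)
    exact_mod_cast (show (n : ℝ) ≤ m by linarith)
  obtain ⟨l, hl⟩ : ∃ l, l = Nat.log 2 (Nat.log 2 n) + 1 := ⟨_, rfl⟩
  rw [← hl] at k1
  have l0 : 1 ≤ l := by omega
  obtain ⟨d, d1, d2, d3, d4, d5, d6, d7, d8⟩ := hBRG n m σ T a h1 h3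
  obtain ⟨M, hM⟩ : ∃ M, M = NU.MM d.x n m (J + 1) := ⟨_, rfl⟩
  have main : ∀ f : Run, f.OK → f.L = d.L → f.R = d.R → f.m = m → f.x = d.x →
      100 * (f.LamR + f.mir.LamR) ≤ f.NR + f.mir.NR + C3 * (m * l ^ 8 + M) := by
    intro f hf f1 f2 f3 f4
    have c : ((2 : ℤ) ^ NU.sg (J + 1)) = (NU.cc (J + 1) : ℕ) := by simp [NU.cc]
    obtain ⟨S, b1, b2, b3, b4⟩ := hB J n f hf (by omega) (by omega) (by rw [c]; omega)
    have l1 := hC f S b3
    have l2 := hLK f hf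
    have l3 : (f.R - f.L).toNat = n + 1 := by omega
    rw [l3, f3, b1, ht, b1] at l1
    rw [f3, f4, ← hM] at b4
    have l4 : (Nat.size ((J + 1) * S.W) + 1) ^ 7 ≤ (4 * (C2 + 2) * l) ^ 7 :=
      Nat.pow_le_pow_left ((fin_size b2).trans ((Nat.mul_le_mul_left _ k1).trans
        (le_of_eq (by ring)))) 7
    have l5 : (n + 1 + m) * (J + 1) * (Nat.size ((J + 1) * S.W) + 1) ^ 7 ≤
        12 * (4 * (C2 + 2)) ^ 7 * (m * l ^ 8) :=
      calc _ ≤ (3 * m) * (4 * l) * (4 * (C2 + 2) * l) ^ 7 :=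
            Nat.mul_le_mul (Nat.mul_le_mul (by omega) k1) l4
        _ = _ := by ring
    have l6 : m * (J + 1) ≤ 4 * (m * l ^ 8) :=
      calc _ ≤ m * (4 * l ^ 8) := Nat.mul_le_mul_left _ (k1.trans
            (Nat.mul_le_mul_left _ (Nat.le_self_pow (by norm_num) l)))
        _ = _ := by ring
    generalize (n + 1 + m) * (J + 1) * (Nat.size ((J + 1) * S.W) + 1) ^ 7 = A at l1 l5
    generalize m * l ^ 8 = Z at l5 l6 ⊢
    generalize (4 * (C2 + 2)) ^ 7 = E at l5 hC3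
    have l7 : C2 * (m * (J + 1) + M) ≤ C2 * (5 * (Z + M)) := Nat.mul_le_mul_left _ (by omega)
    have l8 : A + BB0 f S + BB1 f S ≤ (12 * E + 5 * C2) * (Z + M) := by
      have e1 : (12 * E + 5 * C2) * (Z + M) =
          12 * E * Z + 12 * E * M + C2 * (5 * (Z + M)) := by ring
      omega
    have l9 : C * (A + BB0 f S + BB1 f S) ≤ C3 * (Z + M) := by
      rw [hC3, mul_assoc]
      exact Nat.mul_le_mul_left _ l8
    omega
  obtain ⟨e, e1, e2, e3, e4⟩ := hALGA d d5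
  have t := hTURN d e d5 e2 e1 d6 d7
  obtain ⟨f1, f2, f3, f4⟩ := e1
  have l1 := main d d5 rfl rfl d3 rfl
  have l2 := main e e2 f1 f2 (f3.trans d3) f4
  rw [f3, d3] at e3 e4
  have k5 : (d.R - d.L).toNat = n + 1 := by omega
  rw [k5, d3] at t
  have k6 : cost T ((List.range m).map a) ≤ C3 * (m * l ^ 8 + M) + 60 * m := by omega
  have k7 : (M : ℝ) ≤ 195 * unified n m a := by
    rw [hM]; exact s2 d.x fun i _ => by rw [d4]
  have k8 := NU.le_unified hn m a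
  have k9 : (cost T ((List.range m).map a) : ℝ) ≤ C3 * (m * (l : ℝ) ^ 8 + M) + 60 * m := by
    exact_mod_cast k6
  have k10 : ((Nat.log 2 (Nat.log 2 n) : ℝ) + 1) = l := by rw [hl]; push_cast; ring
  rw [k10]
  have p1 : (0 : ℝ) ≤ m * (l : ℝ) ^ 8 := by positivity
  have p2 : (0 : ℝ) ≤ C3 := Nat.cast_nonneg _
  have p3 : (0 : ℝ) ≤ m := Nat.cast_nonneg _
  generalize (m : ℝ) * (l : ℝ) ^ 8 = Z at k9 p1 ⊢
  push_cast
  nlinarith [mul_le_mul_of_nonneg_left k7 p2, mul_nonneg p2 p1, mul_nonneg p2 (p3.trans k8)]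

end Pool.Agent.P.MP_119182_lc.AD
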