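import Pool.Agent.P.MP_119182_lc.AD.Iface

/-! Step FZ. -/

set_option autoImplicit false

namespace Pool.Agent.P.MP_119182_lc.AD

open Finset
open scoped Classical
open NU (Run mr)
open LU (key tch up low isl Nx within beyond LK)

theorem p_FZ (hLINK : LU.S_LINK) (hHOLD : LU.S_HOLD) :
    S_FZ := by
  intro d h
  have z1 : ∀ s t y, key d y → s ≤ t → t ≤ d.m → (∀ r, s ≤ r → r < t → ¬ tch d r y) →
      d.lp t y = d.lp s y ∧ d.rp t y = d.rp s y := by
    intro s t y hy hst hm hn
    induction t, hst using Nat.le_induction with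
    | base => exact ⟨rfl, rfl⟩
    | succ k hk ih =>
      have ih := ih (by omega) (fun T a b => hn T a (by omega))
      have := (hLINK d h k (by omega)).2.2.1 y hy (hn k hk (by omega))
      omega
  have z2 : ∀ s t y, key d y → (Nx d s y t ↔
      s ≤ t ∧ t < d.m ∧ tch d t y ∧ ∀ r, s ≤ r → r < t → ¬ tch d r y) := by
    intro s t y hy
    constructor
    · rintro ⟨a1, a2, a3, a4, a5⟩
      have n : ∀ r, r ≤ t → ∀ q, s ≤ q → q < r → ¬ tch d q y := by
        intro r
        induction r with
        | zero => intro _ q _ b; omega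
        | succ r ih =>
          intro hr q b c
          rcases Nat.lt_or_ge q r with e | e
          · exact ih (by omega) q b e
          · have e' : q = r := by omega
            subst e'
            have := z1 s q y hy b (by omega) (ih (by omega))
            intro tc
            exact a5 q b (by omega) ⟨by have := tc.2.1; omega, by have := tc.2.2; omega⟩
      have := z1 s t y hy a1 a2.le (n t le_rfl)
      exact ⟨a1, a2, ⟨hy, by omega, by omega⟩, n t le_rfl⟩
    · rintro ⟨a1, a2, a3, a4⟩
      have e := z1 s t y hy a1 a2.le a4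
      have := a3.2
      refine ⟨a1, a2, by omega, by omega, fun q b c tc => ?_⟩
      have := z1 s q y hy b (by omega) (fun r x1 x2 => a4 r x1 (by omega))
      exact a4 q b c ⟨hy, by omega, by omega⟩
  refine ⟨fun s t y hy hst hm hn => ⟨(z1 s t y hy hst hm hn).1, (z1 s t y hy hst hm hn).2,
    fun r a b => ?_⟩, z2, fun s t t' y a b => (hHOLD d h).2.2.2.2.2.2 s t t' _ _ a b, ?_, ?_, ?_,
    fun s hs => (h.step s hs).mem, ?_⟩
  · have e := z1 s r y hy a (by omega) (fun q x1 x2 => hn q x1 (by omega))
    by_contra hc
    exact hn r a b ⟨hy, by omega, by omega⟩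
  · intro r r' v hv hr hm hl
    induction r', hr using Nat.le_induction with
    | base => exact ⟨le_rfl, le_rfl⟩
    | succ k hk ih =>
      have ih := ih (by omega) (fun T a b => hl T a (by omega))
      obtain ⟨l1, l2, l3, l4, l5⟩ := hLINK d h k (by omega)
      by_cases ht : tch d k v
      · have hx := hl k hk (by omega) ht
        have a1 := (l5 v hv).1 hx
        have a2 := ht.2.1
        refine ⟨by omega, le_trans ih.2 ?_⟩
        by_cases hr : d.rp (k + 1) v = d.rp k v
        · omega
        · obtain ⟨b1, b2, b3⟩ := (h.step k (by omega)).lowR v hx hv.2 ht.2.1 hr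
          have b4 := (h.tree k (by omega)).bnd v hv.1 hv.2
          have b5 := (h.tree k (by omega)).bnd (d.rp k v) (by have := hv.1; omega) b1
          omega
      · have := l3 v hv ht
        omega
  · intro s y z hs hy a b
    have b0 := (h.tree s hs).bnd y hy.1 hy.2
    refine ⟨⟨by omega, by omega⟩, ?_⟩
    rcases lt_trichotomy z y with e | e | e
    · have := (h.tree s hs).lamL y z hy.1 hy.2 a e
      omega
    · subst e
      omega
    · have := (h.tree s hs).lamR y z hy.1 hy.2 e b
      omega
  · intro s y hs hy
    have b0 := (h.tree s hs).bnd y hy.1 hy.2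
    have := hy.1
    have := hy.2
    exact ⟨⟨by omega, by omega⟩, ⟨by omega, by omega⟩, by omega, by omega⟩
  · intro t u u' a b c
    have hm := a.1.1
    obtain ⟨l1, -⟩ := hLINK d h t hm
    obtain ⟨p1, p2, -, -, -, p6⟩ := l1 u' b.2
    have x1 := a.1.2.2
    have x2 := b.1.2.2
    have H := (hHOLD d h).2.2.2.2.1 t hm
    rcases p6 with p6 | p6
    · rcases lt_trichotomy u (low d t u') with e | e | e
      · exact (H u _ a.1.2.1 p1 e).1 x1.le
      · exact absurd (e ▸ a.2) p2
      · have := (H _ u p1 a.1.2.1 e).1 p6.1.le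
        omega
    · omega

end Pool.Agent.P.MP_119182_lc.AD
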