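import Pool.Agent.P.MP_119182_lc.AD.Iface

/-! Step KEEP. -/

set_option autoImplicit false

namespace Pool.Agent.P.MP_119182_lc.AD

open Finset
open scoped Classical
open NU (Run mr)
open LU (key tch up low isl Nx within beyond LK)

theorem p_KEEP (hBD : S_BD) (hFF : S_FF) (hGM : S_GM) (hFZ : S_FZ) (hTP : S_TP) (hLINK : LU.S_LINK) :
    S_KEEP := by
  intro d S h s t y hrt hup hN hxt hrf
  obtain ⟨hs, hts, hxs⟩ := hrt
  have ky : key d y := hts.1
  obtain ⟨b1, b2, b3, b4⟩ := hBD d S h
  obtain ⟨f1, f2, -, -, -, -, -, f8⟩ := hFF d S h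
  obtain ⟨z1, z2, -, -, -, z6, z7, -⟩ := hFZ d h.ok
  obtain ⟨n1, n2, n3, n4⟩ := (z2 (s + 1) t y ky).1 hN
  obtain ⟨e1, e2, e3⟩ := z1 (s + 1) t y ky n1 n2.le n4
  have hl : d.lp (s + 1) y = d.x s := by
    by_contra hc
    exact hup ⟨hts, Or.inl ⟨hxs, hc⟩⟩
  obtain ⟨-, pr, -, yr⟩ := z6 (s + 1) y (by omega) ky
  have py : pt d y := ⟨ky.1.le, ky.2.le⟩
  have pxs : pt d (d.x s) := ⟨(z7 s hs).1.le, (z7 s hs).2.le⟩
  have pxt : pt d (d.x t) := ⟨(z7 t n2).1.le, (z7 t n2).2.le⟩
  have hst : d.x s < d.x t := by
    have := n3.2.1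
    omega
  have nrf : ∀ q, s < q → q < t →
      S.cell (bd S y (d.rp (s + 1) y)) (d.x q) ≠
        S.cell (bd S y (d.rp (s + 1) y)) (d.rp (s + 1) y) := by
    intro q h1 h2 e
    exact hrf ⟨q, h2, fun r a b => n4 r (by omega) b, by rw [e2]; exact e⟩
  unfold VR
  rw [e2]
  generalize hr : d.rp (s + 1) y = r at *
  have hjj : bj d S t y ≤ bj d S s y := by
    unfold bj
    rw [b4 (d.x s) (d.x t) y pxs py hst.le hxt.le]
    exact le_max_right _ _
  by_cases hc : bj d S t y < bd S y r
  · have : tp d S t y r = F S t y r := by unfold tp; rw [if_pos hc]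
    omega
  have hc' : ¬ bj d S s y < bd S y r := by omega
  have lts : ∀ j, j ≤ bj d S s y → S.cell j (d.x s) < S.cell j y := fun j hj =>
    lt_of_le_of_ne (h.mono j hxs.le) (((b3 _ _ pxs py).2.2.2 hxs.ne j).1 hj)
  have ltt : S.cell (bj d S t y) (d.x t) < S.cell (bj d S t y) y :=
    lt_of_le_of_ne (h.mono _ hxt.le) (((b3 _ _ pxt py).2.2.2 hxt.ne _).1 le_rfl)
  have hF : F S t y r = F S s y r := by
    unfold F
    rw [(f8 (bd S y r) s t (S.cell (bd S y r) y) (S.cell (bd S y r) r) (by omega) n2.le ?_).1]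
    intro q h1 h2
    have a := lts (bd S y r) (by omega)
    rcases h1.eq_or_lt with e | e
    · subst e; exact Or.inl a
    · rcases e3 q e h2 with c | c
      · have := h.mono (bd S y r) c
        rw [hl] at this
        exact Or.inl (lt_of_le_of_lt this a)
      · exact Or.inr (lt_of_le_of_ne (h.mono _ c) (nrf q e h2).symm)
  rw [hF]
  refine Nat.sub_le_sub_right ?_ _
  have tt : tp d S t y r = pf d S t y (en S (bj d S t y) y r) := by unfold tp; rw [if_neg hc]
  have ts : tp d S s y r = pf d S s y (en S (bj d S s y) y r) := by unfold tp; rw [if_neg hc']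
  rw [tt, ts]
  have myr := h.mono (bj d S t y) yr.le
  have mrR := h.mono (bj d S t y) pr.2
  have en1 : en S (bj d S t y) y r ≤ S.cell (bj d S t y) r := by
    unfold en; split_ifs <;> omega
  have en2 : S.cell (bj d S t y) y - 1 ≤ en S (bj d S t y) y r := by
    unfold en; split_ifs <;> omega
  rcases hjj.lt_or_eq with e | e
  · have a := ((hTP d S h t y r n2 ky hxt yr pr).2.2.2.1 _ (en1.trans mrR)).2
    have b : (bj d S t y + 1) * S.W ≤ bj d S s y * S.W := Nat.mul_le_mul_right _ e
    have c : bj d S s y * S.W ≤ pf d S s y (en S (bj d S s y) y r) := Nat.le_add_right _ _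
    omega
  have frz := f8 (bj d S t y) s t (S.cell (bj d S t y) (d.x s) + 1) (en S (bj d S t y) y r)
    (by omega) n2.le (by
      intro q h1 h2
      rcases h1.eq_or_lt with c | c
      · subst c; left; omega
      · rcases e3 q c h2 with c' | c'
        · have := h.mono (bj d S t y) c'
          rw [hl] at this
          left; omega
        · right
          have m := h.mono (bj d S t y) c'
          unfold en
          split_ifs with g
          · omega
          · have g1 := ((b3 y r py pr).2.2.2 yr.ne (bj d S t y)).2 g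
            have g2 : bd S y r = bj d S t y := by omega
            have g3 := nrf q c h2
            rw [g2] at g3
            exact lt_of_le_of_ne m g3.symm)
  have mst := h.mono (bj d S t y) hst.le
  unfold pf
  rw [← e]
  refine Nat.add_le_add_left (max_le ?_ (le_max_of_le_right (Nat.log_mono_right ?_))) _
  · rcases mst.eq_or_lt with c | c
    · refine le_max_of_le_left ?_
      obtain ⟨g1, g2, -, -, ⟨g5, g6, g7⟩, -⟩ := hGM d S h s y hs
      obtain ⟨-, -, k3, k4, -⟩ := hGM d S h t y n2
      have hit : it d S s y = it d S t y := by unfold it; rw [← e]; exact c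
      have a : sg d S t y ≤ sg d S s y := by
        refine k3 _ fun q h1 h2 h3 => ?_
        rcases lt_trichotomy q s with c' | c' | c'
        · rw [e, ← hit]; exact g2 q h1 c' h3
        · subst c'; exact c
        · exact absurd h3 (n4 q c' h2)
      have b := k4 (st d S s y) (by omega) (by omega)
      have : lo d S t y (st d S s y) = lo d S s y (st d S s y) := by
        unfold lo; rw [e, hit]
      omega
    · refine le_max_of_le_right ?_
      obtain ⟨g1, -, -, k4, -⟩ := hGM d S h t y n2
      refine (k4 t g1 le_rfl).trans ?_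
      unfold lo it
      rw [← e, frz.2 _ (by omega) (by omega)]
      exact Nat.log_mono_right (f2 _ _ _ _ _ (by omega) (by omega))
  · unfold it
    rw [← e, ← frz.1]
    exact f1 _ _ _ _ _ _ (by omega) le_rfl

end Pool.Agent.P.MP_119182_lc.AD
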