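import Pool.Agent.P.MP_119182_lc.AD.Iface

/-! Step LNK. -/

set_option autoImplicit false

namespace Pool.Agent.P.MP_119182_lc.AD

open Finset
open scoped Classical
open NU (Run mr)
open LU (key tch up low isl Nx within beyond LK)

theorem p_LNK (hBD : S_BD) (hFF : S_FF) (hGM : S_GM) (hFZ : S_FZ) (hTP : S_TP) (hORD : S_ORD) (hLINK : LU.S_LINK) :
    S_LNK := by
  intro d S h t u hr
  obtain ⟨⟨tm, htc, hx⟩, hup⟩ := hr
  obtain ⟨c1, c2, -, c4, -, c6⟩ := (hLINK d h.ok t tm).1 u hup
  obtain ⟨a1, a2, a3, -⟩ := c6.resolve_right fun e => by omega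
  obtain ⟨-, -, -, -, -, z6, z7, -⟩ := hFZ d h.ok
  obtain ⟨-, pr, -, ur⟩ := z6 t u tm.le htc.1
  have kx := z7 t tm
  have px : pt d (d.x t) := ⟨kx.1.le, kx.2.le⟩
  have pu : pt d u := ⟨htc.1.1.le, htc.1.2.le⟩
  have pp : pt d (low d t u) := ⟨c1.1.1.le, c1.1.2.le⟩
  have rp : rt d t (low d t u) := ⟨tm, c1, a1⟩
  obtain ⟨-, -, b3, b4⟩ := hBD d S h
  obtain ⟨u1, -, u3, -, u5, -⟩ := hTP d S h t u (d.rp t u) tm htc.1 hx ur pr
  obtain ⟨p1, -, p3, -, p5, p6⟩ := hTP d S h t (low d t u) (d.rp t u) tm c1.1 a1 (a2.trans ur) pr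
  obtain ⟨q1, -, q3, -, -, -⟩ := hTP d S h t (low d t u) u tm c1.1 a1 a2 pu
  have su : shR d S t u = max (VR d S t u) (AA d S t u - F S t u (d.rp t u)) := by
    unfold shR; rw [if_pos hup]
  have sp : shR d S t (low d t u) =
      max (VR d S t (low d t u)) (AA d S t u - F S t (low d t u) u) := by
    unfold shR; rw [if_neg c2, if_pos c4, a3]
  have vu : VR d S t u = tp d S t u (d.rp t u) - F S t u (d.rp t u) := rfl
  have vp : VR d S t (low d t u) = tp d S t (low d t u) u - F S t (low d t u) u := by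
    unfold VR; rw [a3]
  have ea : AA d S t u = tp d S t (low d t u) (d.rp t u) := rfl
  have ed : DD d S t u = AA d S t u - pf d S t (low d t u) (S.cell (bj d S t u) u - 1) := rfl
  have m1 := b4 (d.x t) (low d t u) u px pu a1.le a2.le
  have m2 := b4 (d.x t) (low d t u) (d.rp t u) px pr a1.le (a2.trans ur).le
  have m3 := b4 (low d t u) u (d.rp t u) pp pr a2.le ur.le
  have nc : ¬ crs d S t u → bj d S t (low d t u) = bj d S t u ∧
      bd S (d.x t) (d.rp t u) = bj d S t u ∧ bd S (low d t u) (d.rp t u) ≤ bj d S t u ∧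
      bd S (low d t u) u ≤ bj d S t u ∧ bd S u (d.rp t u) ≤ bj d S t u := by
    unfold crs bj
    intro hc
    omega
  have k1 := h.mono (bj d S t u) a2.le
  have k2 := h.mono (bj d S t u) ur.le
  have ta : ¬ crs d S t u → AA d S t u =
      pf d S t (low d t u) (en S (bj d S t u) (low d t u) (d.rp t u)) := by
    intro hc
    obtain ⟨e1, -, e3, -⟩ := nc hc
    rw [ea]; unfold tp; rw [e1, if_neg (by omega)]
  refine ⟨⟨rp, a2, a3, c4, c2, by omega, by omega, by omega⟩, fun hc => ?_, fun hb => ?_⟩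
  · obtain ⟨e1, e2, e3, e4, e5⟩ := nc hc
    have o := (hORD d S h t (low d t u) u rp ⟨tm, htc, hx⟩ a2.le e1).2.1
    have w1 : pf d S t (low d t u) (S.cell (bj d S t u) u - 1) ≤
        pf d S t u (S.cell (bj d S t u) u - 1) := by
      unfold pf it
      rw [e1]
      exact Nat.add_le_add_left (max_le_max o le_rfl) _
    have w2 : pf d S t u (S.cell (bj d S t u) u - 1) ≤ tp d S t u (d.rp t u) := by
      unfold tp
      rw [if_neg (by omega)]
      refine u5 _ _ ?_
      unfold en
      split_ifs <;> omega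
    have w3 : pf d S t (low d t u) (S.cell (bj d S t u) u - 1) ≤ tp d S t (low d t u) u := by
      unfold tp
      rw [e1, if_neg (by omega)]
      refine p5 _ _ ?_
      unfold en
      split_ifs <;> omega
    exact ⟨e1, e2, by omega, by omega⟩
  · obtain ⟨-, hc, hg⟩ := hb
    obtain ⟨e1, e2, e3, e4, e5⟩ := nc hc
    have ta := ta hc
    have ne : S.cell (bj d S t u) (low d t u) ≠ S.cell (bj d S t u) (d.rp t u) := by
      intro e
      have g1 := p6 (by rw [e1]; exact e)
      have g2 : gp d S t u = AA d S t u - F S t (low d t u) (d.rp t u) := rfl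
      have g3 : en S (bj d S t u) (low d t u) (d.rp t u) = S.cell (bj d S t u) u - 1 := by
        unfold en; rw [if_pos e]; omega
      rw [g3] at ta
      omega
    have n1 := (((b3 (d.x t) (low d t u) px pp).2.2.2 a1.ne) (bj d S t u)).1 e1.ge
    have n2 := h.mono (bj d S t u) a1.le
    have n3 := (((b3 (low d t u) (d.rp t u) pp pr).2.2.2 (a2.trans ur).ne) (bj d S t u)).2 ne
    refine ⟨by omega, by unfold it; omega, ?_, ?_⟩
    · rw [ta]; unfold en; rw [if_neg ne]
    · unfold F; rw [le_antisymm e3 n3]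

end Pool.Agent.P.MP_119182_lc.AD
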