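import Pool.Agent.P.MP_119182_lc.AD.Iface

/-! Step PB. -/

set_option autoImplicit false

namespace Pool.Agent.P.MP_119182_lc.AD

open Finset
open scoped Classical
open NU (Run mr)
open LU (key tch up low isl Nx within beyond LK)

theorem p_PB (hFF : S_FF) (hFZ : S_FZ) (hTP : S_TP) (hPV : S_PV) (hUPP : S_UPP) (hMIR : S_MIR) (hLINK : LU.S_LINK) (hMIRA : LU.S_MIRA) :
    S_PB := by
  intro d S h s u hl
  obtain ⟨⟨hs, htu, hxu⟩, hup⟩ := hl
  have hmm : ∀ v : ℤ, mr (mr v) = v := fun v => by unfold mr; ring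
  obtain ⟨htp, hnup, -, hisl, -, hc⟩ := (hLINK d h.ok s hs).1 u hup
  obtain ⟨hxp, hpu, hrp, -, -, hlu, hru⟩ : d.x s < low d s u ∧ low d s u < u ∧
      d.rp s (low d s u) = u ∧ d.lp (s + 1) (low d s u) = d.x s ∧
      d.rp (s + 1) (low d s u) = d.rp s u ∧ d.lp (s + 1) u = low d s u ∧
      d.rp (s + 1) u = d.rp s u := by
    rcases hc with hc | hc
    · exact hc
    · omega
  have ku : key d u := htu.1
  have kp : key d (low d s u) := htp.1
  have pp : pt d (low d s u) := ⟨kp.1.le, kp.2.le⟩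
  have pu : pt d u := ⟨ku.1.le, ku.2.le⟩
  obtain ⟨-, pr, -, hur⟩ := (hFZ d h.ok).2.2.2.2.2.1 s u hs.le ku
  have Fm := (hFF d S h).2.2.2.2.2.2.1
  have F1 : F S s u (d.rp s u) ≤ F S s (low d s u) (d.rp s u) :=
    Fm s u (d.rp s u) (low d s u) (d.rp s u) pp pr hpu.le hur le_rfl
  have F2 : F S s (low d s u) u ≤ F S s (low d s u) (d.rp s u) :=
    Fm s (low d s u) u (low d s u) (d.rp s u) pp pr le_rfl hpu hur.le
  have F3 : F S s (low d s u) (d.rp s u) ≤ AA d S s u :=
    (hTP d S h s (low d s u) (d.rp s u) hs kp hxp (hpu.trans hur) pr).1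
  have s1 : AA d S s u - F S s u (d.rp s u) ≤ shR d S s u := by
    unfold shR
    rw [if_pos hup]
    exact le_max_right _ _
  have s2 : AA d S s u - F S s (low d s u) u ≤ shR d S s (low d s u) := by
    unfold shR
    rw [if_neg hnup, if_pos hisl, hrp]
    exact le_max_right _ _
  have g1 : gp d S s u = AA d S s u - F S s (low d s u) (d.rp s u) := rfl
  obtain ⟨pv1, pv2, -⟩ := hPV d S h (s + 1) u ku
  refine ⟨by omega, by omega, fun hw => ?_, fun hw => ?_⟩
  · by_cases ha : ∀ t, Nx d (s + 1) u t → d.x t = u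
    · rw [pv2 ha]
      omega
    · push Not at ha
      obtain ⟨t, hn, hne⟩ := ha
      have hlt : d.x t < u := lt_of_le_of_ne ((hw t hn).1 hxu) hne
      rw [pv1 t hn hne]
      unfold pre preR
      rw [if_pos hlt]
      by_cases hr : rf d S t u ∨ ac d t u
      · rw [if_pos hr]
        omega
      · rw [if_neg hr]
        have := hUPP d S h s t u hs hup hn hlt (fun e => hr (Or.inl e))
        rw [hlu, hru] at this
        omega
  · push Not at hw
    obtain ⟨t, hn, hnw⟩ := hw
    have hgt : u < d.x t := by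
      by_contra hcon
      exact hnw ⟨fun _ => by omega, fun e => by omega⟩
    obtain ⟨m1, -, -, -, -, mF, -⟩ := hMIR d S
    obtain ⟨-, -, mup, -, -, -, mnx, -⟩ := hMIRA d (val d S)
    rw [pv1 t hn hgt.ne']
    unfold pre
    rw [if_neg (by omega)]
    unfold preR
    by_cases hr : rf d.mir S.mir t (mr u) ∨ ac d.mir t (mr u)
    · rw [if_pos hr]
      omega
    · rw [if_neg hr]
      have hx : d.mir.x t < mr u := by
        show mr (d.x t) < mr u
        unfold mr
        omega
      have := hUPP d.mir S.mir (m1 h) s t (mr u) hs ((mup s u).2 hup) ((mnx (s + 1) u t).2 hn) hx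
        (fun e => hr (Or.inl e))
      have e1 : d.mir.rp (s + 1) (mr u) = mr (low d s u) := by
        show mr (d.lp (s + 1) (mr (mr u))) = _
        rw [hmm, hlu]
      have e2 : d.mir.lp (s + 1) (mr u) = mr (d.rp s u) := by
        show mr (d.rp (s + 1) (mr (mr u))) = _
        rw [hmm, hru]
      rw [e1, e2, mF h s (low d s u) u pp pu, mF h s (low d s u) (d.rp s u) pp pr] at this
      omega

end Pool.Agent.P.MP_119182_lc.AD
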