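import Pool.Agent.P.MP_119182_lc.AD.Iface

/-! Step PRI. -/

set_option autoImplicit false

namespace Pool.Agent.P.MP_119182_lc.AD

open Finset
open scoped Classical
open NU (Run mr)
open LU (key tch up low isl Nx within beyond LK)

noncomputable def priG (d : Run) (S : Sys) (s : ℕ) (y : ℤ) : ℕ :=
  (if rt d s y ∧ rf d S s y then Nat.size (VR d S s y) ^ 3 else 0) +
    (if rt d s y then Nat.size (shR d S s y - VR d S s y) ^ 3 else 0)

theorem pri_sum (d : Run) (S : Sys) :
    ∑ p ∈ range d.m ×ˢ d.keys, priG d S p.1 p.2 = REF d S + RAI d S := by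
  unfold REF RAI RT
  rw [filter_filter, sum_filter, sum_filter, ← sum_add_distrib]
  rfl

theorem pri_size (a b c : ℕ) (h : c ≤ a + b) :
    Nat.size c ^ 3 ≤ 8 * (Nat.size a ^ 3 + Nat.size b ^ 3) := by
  have key : ∀ a b c : ℕ, c ≤ a + b → a ≤ b → Nat.size c ^ 3 ≤ 8 * Nat.size b ^ 3 := by
    intro a b c h hab
    rcases Nat.eq_zero_or_pos b with hb | hb
    · have : c = 0 := by omega
      simp [this]
    · have h1 : 1 ≤ Nat.size b := Nat.size_pos.2 hb
      have h2 : Nat.size c ≤ Nat.size b + 1 := by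
        rw [Nat.size_le, pow_succ]
        have := Nat.lt_size_self b
        omega
      calc Nat.size c ^ 3 ≤ (2 * Nat.size b) ^ 3 := Nat.pow_le_pow_left (by omega) 3
        _ = 8 * Nat.size b ^ 3 := by ring
  rcases le_total a b with hab | hab
  · have := key a b c h hab
    omega
  · have := key b a c (by omega) hab
    omega

theorem pri_side (d : Run) (S : Sys) (s : ℕ) (y : ℤ) (H : ℕ) (hr : rt d s y)
    (hH : shR d S s y ≤ H) : Nat.size (shR d S s y - preR d S s y) ^ 3 ≤
      (if ac d s y then Nat.size H ^ 3 else 0) + 8 * priG d S s y := by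
  unfold preR priG
  rw [if_pos hr]
  by_cases ha : ac d s y
  · rw [if_pos ha]
    have : Nat.size (shR d S s y - if rf d S s y ∨ ac d s y then 0 else VR d S s y) ^ 3 ≤
        Nat.size H ^ 3 := Nat.pow_le_pow_left (Nat.size_le_size (by omega)) 3
    omega
  · rw [if_neg ha]
    by_cases hf : rf d S s y
    · rw [if_pos (Or.inl hf), if_pos ⟨hr, hf⟩]
      have := pri_size (VR d S s y) (shR d S s y - VR d S s y) (shR d S s y - 0) (by omega)
      omega
    · rw [if_neg (fun e => e.elim hf ha)]
      omega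

theorem p_PRI (hPV : S_PV) (hMIR : S_MIR) (hMIRA : LU.S_MIRA) :
    S_PRI := by
  intro d S h
  have hmm : ∀ v : ℤ, mr (mr v) = v := fun v => by unfold mr; ring
  obtain ⟨mk, mt, -⟩ := hMIRA d (val d S)
  have hkey : ∀ y, y ∈ d.keys ↔ key d y := fun y => by
    unfold Run.keys key
    exact mem_Ioo
  have hkey' : ∀ y, y ∈ d.mir.keys ↔ key d.mir y := fun y => by
    unfold Run.keys key
    exact mem_Ioo
  have hm : ∑ p ∈ range d.m ×ˢ d.keys, priG d.mir S.mir p.1 (mr p.2) =
      REF d.mir S.mir + RAI d.mir S.mir := by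
    rw [← pri_sum]
    refine sum_nbij' (fun p => (p.1, mr p.2)) (fun p => (p.1, mr p.2)) ?_ ?_ ?_ ?_ ?_
    · intro p hp
      rw [mem_product] at hp ⊢
      exact ⟨hp.1, (hkey' _).2 ((mk _).2 ((hkey _).1 hp.2))⟩
    · intro p hp
      rw [mem_product] at hp ⊢
      refine ⟨hp.1, (hkey _).2 ((mk _).1 ?_)⟩
      rw [hmm]
      exact (hkey' _).1 hp.2
    · intro p _
      simp [hmm]
    · intro p _
      simp [hmm]
    · intro p _
      rfl
  have hp : ∀ p ∈ range d.m ×ˢ d.keys,
      Nat.size ((val d S).v p.1 p.2 - (val d S).v0 p.1 p.2) ^ 3 ≤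
        (if p.1 = 0 then Nat.size (ht S) ^ 3 else 0) +
          (if ac d p.1 p.2 then Nat.size (ht S) ^ 3 else 0) +
          8 * priG d S p.1 p.2 + 8 * priG d.mir S.mir p.1 (mr p.2) := by
    rintro ⟨s, y⟩ hp
    rw [mem_product, mem_range, hkey] at hp
    obtain ⟨hs, ky⟩ : s < d.m ∧ key d y := hp
    obtain ⟨-, -, -, p4, p5⟩ := hPV d S h s y ky
    show Nat.size ((if s < d.m ∧ tch d s y ∧ y ≠ d.x s then sh d S s y else pv d S s y) -
      (if s = 0 then 0 else pv d S s y)) ^ 3 ≤ (if s = 0 then Nat.size (ht S) ^ 3 else 0) +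
          (if ac d s y then Nat.size (ht S) ^ 3 else 0) +
          8 * priG d S s y + 8 * priG d.mir S.mir s (mr y)
    by_cases h0 : s = 0
    · rw [if_pos h0, if_pos h0]
      have : (if s < d.m ∧ tch d s y ∧ y ≠ d.x s then sh d S s y else pv d S s y) - 0 ≤ ht S := by
        split_ifs with hc
        · exact (p4 hs hc.2.1 hc.2.2).2.2
        · exact p5
      have := Nat.pow_le_pow_left (Nat.size_le_size this) 3
      omega
    · rw [if_neg h0, if_neg h0]
      by_cases hc : s < d.m ∧ tch d s y ∧ y ≠ d.x s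
      · rw [if_pos hc]
        obtain ⟨q1, -, q3⟩ := p4 hs hc.2.1 hc.2.2
        rw [q1]
        unfold pre
        unfold sh at q3 ⊢
        by_cases hx : d.x s < y
        · rw [if_pos hx] at q3
          rw [if_pos hx, if_pos hx]
          have := pri_side d S s y (ht S) ⟨hs, hc.2.1, hx⟩ q3
          omega
        · rw [if_neg hx] at q3
          rw [if_neg hx, if_neg hx]
          have hx' : d.mir.x s < mr y := by
            show mr (d.x s) < mr y
            have := hc.2.2
            unfold mr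
            omega
          have h1 := pri_side d.mir S.mir s (mr y) (ht S) ⟨hs, (mt s y).2 hc.2.1, hx'⟩ q3
          have h2 : ac d.mir s (mr y) ↔ ac d s y := by
            show (1 ≤ s ∧ mr (d.x (s - 1)) = mr y) ↔ (1 ≤ s ∧ d.x (s - 1) = y)
            unfold mr
            omega
          rw [if_congr h2 rfl rfl] at h1
          omega
      · rw [if_neg hc]
        simp
  have c1 : #((range d.m ×ˢ d.keys).filter fun p : ℕ × ℤ => p.1 = 0) ≤ (d.R - d.L).toNat := by
    have : #d.keys ≤ (d.R - d.L).toNat := by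
      unfold Run.keys
      rw [Int.card_Ioo]
      omega
    refine le_trans (card_le_card_of_injOn Prod.snd ?_ ?_) this
    · intro p hp
      exact (mem_product.1 (mem_filter.1 hp).1).2
    · intro p hp q hq e
      exact Prod.ext ((mem_filter.1 hp).2.trans (mem_filter.1 hq).2.symm) e
  have c2 : #((range d.m ×ˢ d.keys).filter fun p : ℕ × ℤ => ac d p.1 p.2) ≤ d.m := by
    refine le_trans (card_le_card_of_injOn (t := range d.m) Prod.fst ?_ ?_) (by simp)
    · intro p hp
      exact (mem_product.1 (mem_filter.1 hp).1).1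
    · intro p hp q hq e
      refine Prod.ext e ?_
      rw [← (mem_filter.1 hp).2.2, ← (mem_filter.1 hq).2.2, e]
  refine (sum_le_sum hp).trans ?_
  rw [sum_add_distrib, sum_add_distrib, sum_add_distrib, ← mul_sum, ← mul_sum, pri_sum, hm,
    ← sum_filter, ← sum_filter, sum_const, sum_const, smul_eq_mul, smul_eq_mul]
  have e1 := Nat.mul_le_mul_right (Nat.size (ht S) ^ 3) c1
  have e2 := Nat.mul_le_mul_right (Nat.size (ht S) ^ 3) c2
  rw [add_mul]
  omega

end Pool.Agent.P.MP_119182_lc.AD
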