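import Pool.Agent.P.MP_119182_lc.AD.Iface

/-! Step RFC. -/

set_option autoImplicit false

namespace Pool.Agent.P.MP_119182_lc.AD

open Finset
open scoped Classical
open NU (Run mr)
open LU (key tch up low isl Nx within beyond LK)

namespace RFCx

variable {d : Run} {S : Sys}

theorem nestle (h : OK d S) {i j : ℕ} (hij : i ≤ j) {a b : ℤ} (e : S.cell i a = S.cell i b) :
    S.cell j a = S.cell j b := by
  induction j, hij using Nat.le_induction with
  | base => exact e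
  | succ n _ ih => exact h.nest _ _ _ ih

theorem bd_spec (h : OK d S) {a b : ℤ} (ha : pt d a) (hb : pt d b) :
    S.cell (bd S a b + 1) a = S.cell (bd S a b + 1) b :=
  Nat.sInf_mem (s := {j | S.cell (j + 1) a = S.cell (j + 1) b}) ⟨S.J, h.top a b ha hb⟩

theorem bd_le {a b : ℤ} {j : ℕ} (e : S.cell (j + 1) a = S.cell (j + 1) b) : bd S a b ≤ j :=
  Nat.sInf_le (s := {j | S.cell (j + 1) a = S.cell (j + 1) b}) e

theorem bd_le_J (h : OK d S) {a b : ℤ} (ha : pt d a) (hb : pt d b) : bd S a b ≤ S.J :=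
  bd_le (h.top a b ha hb)

theorem bd_iff (h : OK d S) {a b : ℤ} (ha : pt d a) (hb : pt d b) (j : ℕ) :
    bd S a b ≤ j ↔ S.cell (j + 1) a = S.cell (j + 1) b :=
  ⟨fun e => nestle h (Nat.succ_le_succ e) (bd_spec h ha hb), bd_le⟩

theorem bd_ne (h : OK d S) {a b : ℤ} (hab : a ≠ b) {j : ℕ} (hj : j ≤ bd S a b) :
    S.cell j a ≠ S.cell j b := by
  intro e
  rcases j with _ | j
  · exact hab (h.inj _ _ e)
  · have := bd_le e
    omega

theorem bd_comm (a b : ℤ) : bd S a b = bd S b a := by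
  unfold bd
  congr 1
  ext j
  exact eq_comm

theorem bd_mono (h : OK d S) {a b a' b' : ℤ} (ha : pt d a) (hb : pt d b) (h1 : a ≤ a')
    (h2 : a' ≤ b') (h3 : b' ≤ b) : bd S a' b' ≤ bd S a b := by
  have e := bd_spec h ha hb
  refine bd_le (le_antisymm (h.mono _ h2) ?_)
  calc S.cell _ b' ≤ S.cell _ b := h.mono _ h3
    _ = S.cell _ a := e.symm
    _ ≤ S.cell _ a' := h.mono _ h1

theorem bd_max (h : OK d S) {a b c : ℤ} (ha : pt d a) (hc : pt d c) (h1 : a ≤ b) (h2 : b ≤ c) :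
    bd S a c = max (bd S a b) (bd S b c) := by
  have hb : pt d b := ⟨ha.1.trans h1, h2.trans hc.2⟩
  refine le_antisymm (bd_le ?_) (max_le (bd_mono h ha hc le_rfl h1 h2)
    (bd_mono h ha hc h1 h2 le_rfl))
  exact ((bd_iff h ha hb _).1 (le_max_left _ _)).trans ((bd_iff h hb hc _).1 (le_max_right _ _))

theorem sm_mono (j t : ℕ) {c c' e e' : ℤ} (h1 : e ≤ c) (h2 : c' ≤ e') :
    sm S j t c c' ≤ sm S j t e e' :=
  sum_le_sum_of_subset (Icc_subset_Icc h1 h2)

theorem om_le (j t : ℕ) {c e e' : ℤ} (h1 : e ≤ c) (h2 : c ≤ e') : S.om j t c ≤ sm S j t e e' :=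
  single_le_sum (f := fun e => S.om j t e) (fun _ _ => Nat.zero_le _) (mem_Icc.2 ⟨h1, h2⟩)

theorem log_lt (h : OK d S) (hLR : d.L ≤ d.R) {j t k : ℕ}
    (hk : k ≤ sm S j t (S.cell j d.L) (S.cell j d.R)) : Nat.log 2 k < S.W := by
  have h1 := h.ht j t
  have h2 : 1 ≤ sm S j t (S.cell j d.L) (S.cell j d.R) :=
    (h.pos j t _).trans (om_le j t le_rfl (h.mono j hLR))
  have h3 : S.W ≠ 0 := by
    intro e
    rw [e] at h1
    omega
  rcases Nat.eq_zero_or_pos k with rfl | hk0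
  · simp only [Nat.log_zero_right]
    omega
  · exact Nat.log_lt_of_lt_pow hk0.ne' (hk.trans_lt h1)

theorem F_lt (h : OK d S) (t : ℕ) {a b : ℤ} (ha : pt d a) (hb : pt d b) :
    F S t a b < (bd S a b + 1) * S.W := by
  unfold F
  have := log_lt h (ha.1.trans ha.2) (j := bd S a b) (t := t)
    (sm_mono _ _ (h.mono _ ha.1) (h.mono _ hb.2))
  rw [add_mul, one_mul]
  omega

theorem F_mono (h : OK d S) (t : ℕ) {a b a' b' : ℤ} (ha : pt d a) (hb : pt d b) (h1 : a ≤ a')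
    (h2 : a' ≤ b') (h3 : b' ≤ b) : F S t a' b' ≤ F S t a b := by
  have ha' : pt d a' := ⟨ha.1.trans h1, (h2.trans h3).trans hb.2⟩
  have hb' : pt d b' := ⟨(ha.1.trans h1).trans h2, h3.trans hb.2⟩
  rcases (bd_mono h ha hb h1 h2 h3).eq_or_lt with e | e
  · unfold F
    rw [e]
    exact Nat.add_le_add_left (Nat.log_mono_right (sm_mono _ _ (h.mono _ h1) (h.mono _ h3))) _
  · refine (F_lt h t ha' hb').le.trans ((Nat.mul_le_mul_right _ e).trans ?_)
    exact Nat.le_add_right _ _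

theorem cube (D : ℕ) : Nat.size D ^ 3 ≤ 9 * D := by
  have key : ∀ k, (k + 1) ^ 3 ≤ 9 * 2 ^ k := by
    intro k
    induction k with
    | zero => norm_num
    | succ k ih =>
      rcases Nat.lt_or_ge k 3 with h | h
      · interval_cases k <;> norm_num
      · have : (k + 1 + 1) ^ 3 ≤ 2 * (k + 1) ^ 3 := by
          obtain ⟨i, rfl⟩ := Nat.exists_eq_add_of_le h
          ring_nf
          nlinarith [Nat.zero_le (i ^ 3), Nat.zero_le (i ^ 2)]
        rw [pow_succ 2 k]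
        omega
  rcases h : Nat.size D with _ | k
  · simp
  · have : 2 ^ k ≤ D := Nat.lt_size.1 (by omega)
    exact (key k).trans (Nat.mul_le_mul_left _ this)

end RFCx

open RFCx in
theorem p_RFC (hBD : S_BD) (hFF : S_FF) (hFZ : S_FZ) :
    S_RFC := by
  intro d S h σ j hσ
  set Z := d.keys.filter fun y => bd S y (d.rp (σ + 1) y) = j ∧
    S.cell j (d.x σ) = S.cell j (d.rp (σ + 1) y) with hZ
  have z : ∀ y ∈ Z, key d y ∧ bd S y (d.rp (σ + 1) y) = j ∧
      S.cell j (d.x σ) = S.cell j (d.rp (σ + 1) y) := fun y hy =>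
    ⟨mem_Ioo.1 (mem_filter.1 hy).1, (mem_filter.1 hy).2⟩
  have bn : ∀ y ∈ Z, pt d (d.lp (σ + 1) y) ∧ pt d y ∧ pt d (d.rp (σ + 1) y) ∧
      d.lp (σ + 1) y < y ∧ y < d.rp (σ + 1) y := fun y hy => by
    have hk := (z y hy).1
    obtain ⟨b1, b2, b3, b4⟩ := (h.ok.tree _ hσ).bnd _ hk.1 hk.2
    exact ⟨⟨b1, (b2.trans hk.2).le⟩, ⟨hk.1.le, hk.2.le⟩, ⟨(hk.1.trans b3).le, b4⟩, b2, b3⟩
  have nest : ∀ y ∈ Z, ∀ y' ∈ Z, y < y' →
      F S (σ + 1) (d.lp (σ + 1) y') (d.rp (σ + 1) y') ≤ F S (σ + 1) y (d.rp (σ + 1) y) := by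
    intro y hy y' hy' lt
    obtain ⟨a, b, c⟩ := z y hy
    obtain ⟨a', b', c'⟩ := z y' hy'
    obtain ⟨n1, n2, n3, n4, n5⟩ := bn y hy
    obtain ⟨m1, m2, m3, m4, m5⟩ := bn y' hy'
    have k1 : y' < d.rp (σ + 1) y := by
      by_contra k
      have k2 := h.mono j (not_lt.1 k)
      have k3 := h.mono j m5.le
      have k4 := bd_ne h m5.ne b'.ge
      omega
    obtain ⟨k2, k3⟩ := (h.ok.tree _ hσ).lamR y y' a.1 a.2 lt k1
    exact F_mono h _ n2 n3 k2 (m4.trans m5).le k3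
  rcases Z.eq_empty_or_nonempty with k | k
  · rw [k, sum_empty]
    exact Nat.zero_le _
  obtain ⟨y0, hy0, hmin⟩ := exists_min_image Z id k
  rw [← add_sum_erase Z _ hy0]
  refine Nat.add_le_add (Nat.pow_le_pow_left (Nat.size_le_size ?_) 3) ?_
  · obtain ⟨n1, -, n3, -⟩ := bn y0 hy0
    have k2 := F_lt h (σ + 1) n1 n3
    have k3 := Nat.mul_le_mul_right S.W (Nat.add_le_add_right (bd_le_J h n1 n3) 1)
    unfold ht
    omega
  refine (sum_le_sum fun p _ => cube _).trans ?_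
  rw [← mul_sum]
  refine Nat.mul_le_mul_left 9 ?_
  rw [sum_congr rfl fun y _ => (Nat.card_Ico _ _).symm, ← card_biUnion]
  · refine (card_le_card (t := Ico (j * S.W + Nat.log 2 (S.om j (σ + 1) (S.cell j (d.x σ))))
      (j * S.W + Nat.log 2 (S.SG j (σ + 1) (d.x σ)))) (biUnion_subset.2 fun p hp => ?_)).trans ?_
    · obtain ⟨q1, q2⟩ := mem_erase.1 hp
      refine Ico_subset_Ico ?_ ((nest y0 hy0 p q2 (lt_of_le_of_ne (hmin p q2) q1.symm)).trans ?_)
      · unfold F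
        rw [(z p q2).2.1, (z p q2).2.2]
        exact Nat.add_le_add_left (Nat.log_mono_right
          (om_le _ _ (h.mono _ (bn p q2).2.2.2.2.le) le_rfl)) _
      · obtain ⟨-, n2, n3, -⟩ := bn y0 hy0
        have k1 := bd_spec h n2 n3
        have k2 := h.nest _ _ _ (z y0 hy0).2.2
        unfold F
        rw [(z y0 hy0).2.1] at k1 ⊢
        exact Nat.add_le_add_left (Nat.log_mono_right
          (h.sg j _ _ _ _ n2 n3 (k1.trans k2.symm) k2.symm)) _
    · rw [Nat.card_Ico]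
      unfold B1
      omega
  · intro p hp p' hp' ne
    have q := (mem_erase.1 (mem_coe.1 hp)).2
    have q' := (mem_erase.1 (mem_coe.1 hp')).2
    refine disjoint_left.2 fun v v1 v2 => ?_
    obtain ⟨a1, a2⟩ := mem_Ico.1 v1
    obtain ⟨b1, b2⟩ := mem_Ico.1 v2
    rcases lt_trichotomy p p' with k | k | k
    · have := nest p q p' q' k
      omega
    · exact ne k
    · have := nest p' q' p q k
      omega

end Pool.Agent.P.MP_119182_lc.AD
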