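import Pool.Agent.P.MP_119182_lc.AD.Iface

/-! Step TNT. -/

set_option autoImplicit false

namespace Pool.Agent.P.MP_119182_lc.AD

open Finset
open scoped Classical
open NU (Run mr)
open LU (key tch up low isl Nx within beyond LK)

theorem p_TNT (hVS : S_VS) (hCRS : S_CRS) :
    S_TNT := by
  intro d S h
  refine le_trans ?_ (hCRS d S h)
  have key1 : ∀ t u, bad d S t u → ¬ cln d S t u →
      sg d S t u ≤ sSup {r | r < t ∧ up d r u} ∧ sSup {r | r < t ∧ up d r u} < t ∧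
      up d (sSup {r | r < t ∧ up d r u}) u := by
    intro t u _ hn
    unfold cln at hn
    push Not at hn
    obtain ⟨r, r1, r2, r3⟩ := hn
    have bb : BddAbove {r | r < t ∧ up d r u} := ⟨t, fun _ hq => hq.1.le⟩
    have a1 : r ≤ sSup {r | r < t ∧ up d r u} := le_csSup bb ⟨r2, r3⟩
    have a2 := Nat.sSup_mem (s := {r | r < t ∧ up d r u}) ⟨r, r2, r3⟩ bb
    exact ⟨r1.trans a1, a2.1, a2.2⟩
  have key2 : ∀ t t' u, t < t' → up d t u → t ≤ sSup {r | r < t' ∧ up d r u} :=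
    fun t t' u h1 h2 => le_csSup (s := {r | r < t' ∧ up d r u}) ⟨t', fun _ hq => hq.1.le⟩ ⟨h1, h2⟩
  refine card_le_card_of_injOn (fun p => (sSup {r | r < p.1 ∧ up d r p.2}, p.2)) ?_ ?_
  · intro p hp
    obtain ⟨hp1, hp2⟩ := mem_filter.1 (mem_coe.1 hp)
    obtain ⟨hp3, hb⟩ := mem_filter.1 hp1
    obtain ⟨a1, a2, a3⟩ := key1 p.1 p.2 hb hp2
    obtain ⟨c1, c2⟩ := ((hVS d S h p.1 p.2 hb).1 _ a1 a2.le a3.1).2.2 a2 a3
    refine mem_coe.2 (mem_filter.2 ⟨mem_filter.2 ⟨mem_product.2 ⟨mem_range.2 c1.1.1,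
      (mem_product.1 hp3).2⟩, c1⟩, c2⟩)
  · rintro ⟨t, u⟩ hp ⟨t', u'⟩ hq e
    obtain ⟨hp1, hp2⟩ := mem_filter.1 (mem_coe.1 hp)
    obtain ⟨_, hb⟩ := mem_filter.1 hp1
    obtain ⟨hq1, hq2⟩ := mem_filter.1 (mem_coe.1 hq)
    obtain ⟨_, hb'⟩ := mem_filter.1 hq1
    obtain ⟨e1, e2⟩ := Prod.mk.inj e
    dsimp only at e1 e2 hb hb' hp2 hq2
    subst e2
    have a2 := (key1 t u hb hp2).2.1
    have a2' := (key1 t' u hb' hq2).2.1
    rcases lt_trichotomy t t' with c | c | c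
    · have := key2 t t' u c hb.1.2
      omega
    · rw [c]
    · have := key2 t' t u c hb'.1.2
      omega

end Pool.Agent.P.MP_119182_lc.AD
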