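import Pool.Agent.P.MP_119182_lc.AD.Iface

/-! Step UPP. -/

set_option autoImplicit false

namespace Pool.Agent.P.MP_119182_lc.AD

open Finset
open scoped Classical
open NU (Run mr)
open LU (key tch up low isl Nx within beyond LK)

theorem p_UPP (hBD : S_BD) (hFF : S_FF) (hGM : S_GM) (hFZ : S_FZ) (hTP : S_TP) (hLINK : LU.S_LINK) :
    S_UPP := by
  intro d S h s t y sm' hup hnx hx hrf
  have ky : key d y := hup.1.1
  obtain ⟨z1, z2, -, -, -, z6, z7, -⟩ := hFZ d h.ok
  obtain ⟨n1, n2, n3, n4⟩ := (z2 (s + 1) t y ky).1 hnx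
  obtain ⟨ea, eb, out⟩ := z1 (s + 1) t y ky n1 n2.le n4
  obtain ⟨pa, pb, la, lb⟩ := z6 (s + 1) y (by omega) ky
  obtain ⟨-, -, b3, b4⟩ := hBD d S h
  obtain ⟨f1, f2, -, -, -, f6, f7, f8⟩ := hFF d S h
  obtain ⟨g1, -, g3, g4, -, -, -⟩ := hGM d S h t y n2
  have xs : d.x s ≤ d.lp (s + 1) y ∨ d.rp (s + 1) y ≤ d.x s := by
    rcases ((hLINK d h.ok s sm').1 y hup).2.2.2.2.2 with c | c
    · left; rw [c.2.2.2.2.2.1]; exact c.1.le
    · right; rw [c.2.2.2.2.2.1]; exact c.1.le
  have ax : d.lp (s + 1) y < d.x t := by rw [← ea]; exact n3.2.1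
  generalize d.lp (s + 1) y = a at *
  generalize d.rp (s + 1) y = b at *
  have out' : ∀ r, s ≤ r → r < t → d.x r ≤ a ∨ b ≤ d.x r := by
    intro r r1 r2
    by_cases e : r = s
    · rw [e]; exact xs
    · exact out r (by omega) r2
  have py : pt d y := ⟨ky.1.le, ky.2.le⟩
  have px : pt d (d.x t) := ⟨(z7 t n2).1.le, (z7 t n2).2.le⟩
  have nr : ∀ r, s ≤ r → r < t → S.cell (bd S y b) (d.x r) ≠ S.cell (bd S y b) b := by
    intro r r1 r2 e
    refine hrf ⟨r, r2, fun q q1 q2 => n4 q (by omega) q2, ?_⟩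
    rw [eb]; exact e
  obtain ⟨t1, -, -, t4, -, -⟩ := hTP d S h t y b n2 ky hx lb pb
  have mono := f7 s y b a b pa pb la.le lb le_rfl
  unfold VR
  rw [eb]
  by_cases c : bj d S t y < bd S y b
  · have : tp d S t y b = F S t y b := by unfold tp; rw [if_pos c]
    omega
  have tpe : tp d S t y b = pf d S t y (en S (bj d S t y) y b) := by unfold tp; rw [if_neg c]
  have c' : bd S y b ≤ bd S (d.x t) y := not_lt.1 c
  have ne1 : S.cell (bd S y b) (d.x t) ≠ S.cell (bd S y b) y :=
    ((b3 _ _ px py).2.2.2 hx.ne _).1 c'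
  have eF : F S t y b = F S s y b := by
    unfold F
    rw [(f8 (bd S y b) s t _ _ (by omega) n2.le ?_).1]
    intro r r1 r2
    rcases out' r r1 r2 with o | o
    · left
      have m1 := h.mono (bd S y b) (o.trans ax.le)
      have m2 := h.mono (bd S y b) hx.le
      omega
    · right
      have m1 := h.mono (bd S y b) o
      have := nr r r1 r2
      omega
  have enle : en S (bj d S t y) y b ≤ S.cell (bj d S t y) b := by
    unfold en
    split_ifs with e
    · omega
    · exact le_rfl
  have jle : bj d S t y ≤ bd S a b := by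
    have e1 := b4 a (d.x t) b pa pb ax.le (hx.le.trans lb.le)
    have e2 := b4 (d.x t) y b px pb hx.le lb.le
    unfold bj
    omega
  suffices hh : pf d S t y (en S (bj d S t y) y b) ≤ F S s a b by omega
  rcases jle.lt_or_eq with l | l
  · have a1 := (t4 _ (enle.trans (h.mono _ pb.2))).2
    have a2 := (f6 s a b pa pb (la.trans lb)).1
    have a3 : (bj d S t y + 1) * S.W ≤ bd S a b * S.W := Nat.mul_le_mul_right _ l
    omega
  unfold pf F
  rw [← l]
  have m1 : S.cell (bj d S t y) a ≤ it d S t y := h.mono _ ax.le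
  have m2 : it d S t y ≤ S.cell (bj d S t y) b := h.mono _ (hx.le.trans lb.le)
  refine Nat.add_le_add_left (max_le ?_ ?_) _
  · refine le_trans ?_ (Nat.log_mono_right (f2 (bj d S t y) s _ _ _ m1 m2))
    by_cases e : S.cell (bj d S t y) (d.x s) = it d S t y
    · refine g4 s (g3 s ?_) (by omega)
      intro r r1 r2 r3
      by_cases e' : r = s
      · rw [e']; exact e
      · exact absurd r3 (n4 r (by omega) r2)
    · have a1 := g4 (s + 1) (g3 (s + 1) fun r r1 r2 r3 => absurd r3 (n4 r r1 r2)) n1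
      unfold lo at a1
      rw [h.keep _ s _ sm' fun q => e q.symm] at a1
      exact a1
  · rw [(f8 (bj d S t y) s t _ _ (by omega) n2.le ?_).1]
    · exact Nat.log_mono_right (f1 _ _ _ _ _ _ (by omega) enle)
    intro r r1 r2
    rcases out' r r1 r2 with o | o
    · left
      have m3 : S.cell (bj d S t y) (d.x r) ≤ it d S t y := h.mono _ (o.trans ax.le)
      omega
    · right
      have m3 := h.mono (bj d S t y) o
      unfold en
      split_ifs with e
      · omega
      · have q : bj d S t y ≤ bd S y b := ((b3 _ _ py pb).2.2.2 lb.ne _).2 e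
        have q' : bd S y b = bj d S t y := by omega
        have := nr r r1 r2
        rw [q'] at this
        omega

end Pool.Agent.P.MP_119182_lc.AD
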