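import Pool.Agent.P.MP_119182_lc.AD.Iface

/-! Step YNG. -/

set_option autoImplicit false

namespace Pool.Agent.P.MP_119182_lc.AD

open Finset
open scoped Classical
open NU (Run mr)
open LU (key tch up low isl Nx within beyond LK)

theorem yng_fib (A : Finset (ℕ × ℤ)) (f g w : ℕ × ℤ → ℕ) (θ c : ℕ)
    (h : ∀ ρ a, #(A.filter fun p => f p = ρ ∧ g p = a ∧ w p ≤ θ) ≤ c) :
    #(A.filter fun p => w p ≤ θ) ≤ c * #(A.image fun p => (f p, g p)) := by
  refine Finset.card_le_mul_card_image_of_maps_to (f := fun p : ℕ × ℤ => (f p, g p))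
    (fun p hp => mem_image_of_mem _ (mem_filter.1 hp).1) c ?_
  intro b _
  refine le_trans (card_le_card ?_) (h b.1 b.2)
  intro p hp
  simp only [mem_filter] at hp ⊢
  obtain ⟨⟨h3, h4⟩, h5⟩ := hp
  refine ⟨h3, ?_, ?_, h4⟩
  · rw [← h5]
  · rw [← h5]

theorem yng_sum (P : Finset (ℕ × ℕ)) (m : ℕ) :
    ∑ s ∈ range m, #(P.filter fun q => q.1 = s) ≤ #P := by
  rw [← card_biUnion]
  · refine card_le_card ?_
    intro q hq
    obtain ⟨s, _, hq⟩ := mem_biUnion.1 hq
    exact (mem_filter.1 hq).1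
  · intro a _ b _ hab
    refine disjoint_left.2 ?_
    intro q hq hq'
    exact hab ((mem_filter.1 hq).2.symm.trans (mem_filter.1 hq').2)

theorem p_YNG (hFIB : S_FIB) (hINC : S_INC) (hPAIR : S_PAIR) (hVS : S_VS) :
    S_YNG := by
  intro d S h j i θ
  have h1 : ∀ s, #((CF d S j s i).filter fun p => #(vs d S p.1 p.2) ≤ θ) ≤
      6 * θ * (#((PR d S j).filter fun q => q.1 = s) + B0 d S j s / 2 ^ (i - 1) + 2) := by
    intro s
    have h2 := yng_fib (CF d S j s i) (fun p => ro d S p.1 p.2) (fun p => an d S p.1 p.2)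
      (fun p => #(vs d S p.1 p.2)) θ (6 * θ) (fun ρ a => hFIB d S h j s i ρ a θ)
    exact h2.trans (Nat.mul_le_mul_left _ (hINC d S h j s i))
  have h3 : (CL d S).filter (fun p => bj d S p.1 p.2 = j ∧ sc d S p.1 p.2 = i ∧
      #(vs d S p.1 p.2) ≤ θ) ⊆ (range d.m).biUnion fun s =>
        (CF d S j s i).filter fun p => #(vs d S p.1 p.2) ≤ θ := by
    intro p hp
    obtain ⟨hc, hj, hi, hv⟩ := mem_filter.1 hp
    have hb : bad d S p.1 p.2 := (mem_filter.1 (mem_filter.1 hc).1).2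
    have hs : st d S p.1 p.2 < d.m := (hVS d S h p.1 p.2 hb).2.2.2.2.1
    exact mem_biUnion.2 ⟨_, mem_range.2 hs,
      mem_filter.2 ⟨mem_filter.2 ⟨hc, hj, rfl, hi⟩, hv⟩⟩
  have h4 := (yng_sum (PR d S j) d.m).trans (hPAIR d S h j)
  refine (card_le_card h3).trans (card_biUnion_le.trans ?_)
  refine (sum_le_sum fun s _ => h1 s).trans ?_
  rw [← mul_sum]
  refine Nat.mul_le_mul_left _ ?_
  rw [sum_add_distrib, sum_add_distrib, sum_const, card_range, smul_eq_mul]
  omega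

end Pool.Agent.P.MP_119182_lc.AD
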