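import Pool.Agent.P.MP_119182_lc.AD.Iface

/-! Step ZG. -/

set_option autoImplicit false

namespace Pool.Agent.P.MP_119182_lc.AD

open Finset
open scoped Classical
open NU (Run mr)
open LU (key tch up low isl Nx within beyond LK)

theorem p_ZG (hMIR : S_MIR) (hMIRA : LU.S_MIRA) (hLINK : LU.S_LINK) :
    S_ZG := by
  intro d S _
  have hmm : ∀ a : ℤ, mr (mr a) = a := fun a => by unfold mr; ring
  obtain ⟨-, hT, hU, -⟩ := hMIRA d (val d S)
  have hsub : ((LK d).filter fun p => ¬ 1 ≤ (val d S).g p.1 p.2) ⊆
      ((RL d).filter fun p => gp d S p.1 p.2 = 0) ∪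
      (((RL d.mir).filter fun p => gp d.mir S.mir p.1 p.2 = 0).image
        fun p : ℕ × ℤ => (p.1, mr p.2)) := by
    rintro ⟨s, u⟩ hp
    rw [mem_filter] at hp
    obtain ⟨hL, hg⟩ := hp
    unfold LK at hL
    rw [mem_filter] at hL
    obtain ⟨hm, hup⟩ := hL
    have hm' := mem_product.1 hm
    have hs : s < d.m := mem_range.1 hm'.1
    have hg0 : gg d S s u = 0 := by
      have : (val d S).g s u = gg d S s u := rfl
      simp only [this] at hg
      omega
    rw [mem_union]
    by_cases hx : d.x s < u
    · left
      rw [mem_filter]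
      refine ⟨?_, ?_⟩
      · unfold RL
        rw [mem_filter]
        exact ⟨hm, ⟨hs, hup.1, hx⟩, hup⟩
      · unfold gg at hg0
        rw [if_pos hx] at hg0
        exact hg0
    · right
      have hx' : u < d.x s := by
        rcases hup.2 with h | h
        · exact absurd h.1 hx
        · exact h.1
      rw [mem_image]
      refine ⟨(s, mr u), ?_, by simp only [hmm]⟩
      rw [mem_filter]
      have hup' : up d.mir s (mr u) := (hU s u).2 hup
      refine ⟨?_, ?_⟩
      · unfold RL
        rw [mem_filter]
        refine ⟨mem_product.2 ⟨mem_range.2 hs, ?_⟩, ⟨hs, hup'.1, ?_⟩, hup'⟩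
        · have hk := hup'.1.1
          exact mem_Ioo.2 hk
        · show mr (d.x s) < mr u
          unfold mr
          omega
      · unfold gg at hg0
        rw [if_neg hx] at hg0
        exact hg0
  refine (card_le_card hsub).trans ((card_union_le _ _).trans ?_)
  exact Nat.add_le_add_left card_image_le _

end Pool.Agent.P.MP_119182_lc.AD
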