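import Pool.Agent.P.MP_119182_lc.NU.TALGA
import Pool.Agent.P.MP_119182_lc.NU.TBRG
import Pool.Agent.P.MP_119182_lc.NU.TTURN
import Pool.Agent.P.MP_119182_lc.NU.TWCNT
import Pool.Agent.P.MP_119182_lc.NU.TTSPL
import Pool.Agent.P.MP_119182_lc.NU.TNS
import Pool.Agent.P.MP_119182_lc.NU.TDBL
import Pool.Agent.P.MP_119182_lc.NU.TLW
import Pool.Agent.P.MP_119182_lc.NU.TEMIR
import Pool.Agent.P.MP_119182_lc.LU.All
import Pool.Agent.P.MP_119182_lc.LW.TLK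
import Pool.Agent.P.MP_119182_lc.AD.TBD
import Pool.Agent.P.MP_119182_lc.AD.TFF
import Pool.Agent.P.MP_119182_lc.AD.TGM
import Pool.Agent.P.MP_119182_lc.AD.TFZ
import Pool.Agent.P.MP_119182_lc.AD.TTP
import Pool.Agent.P.MP_119182_lc.AD.TKEEP
import Pool.Agent.P.MP_119182_lc.AD.TUPP
import Pool.Agent.P.MP_119182_lc.AD.TBIR
import Pool.Agent.P.MP_119182_lc.AD.TMIR
import Pool.Agent.P.MP_119182_lc.AD.TPV
import Pool.Agent.P.MP_119182_lc.AD.TPA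
import Pool.Agent.P.MP_119182_lc.AD.TPB
import Pool.Agent.P.MP_119182_lc.AD.TPOK
import Pool.Agent.P.MP_119182_lc.AD.TPRI
import Pool.Agent.P.MP_119182_lc.AD.TRFV
import Pool.Agent.P.MP_119182_lc.AD.TRFC
import Pool.Agent.P.MP_119182_lc.AD.TREF
import Pool.Agent.P.MP_119182_lc.AD.TCRS
import Pool.Agent.P.MP_119182_lc.AD.TORD
import Pool.Agent.P.MP_119182_lc.AD.TLNK
import Pool.Agent.P.MP_119182_lc.AD.TRAI
import Pool.Agent.P.MP_119182_lc.AD.TDQ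
import Pool.Agent.P.MP_119182_lc.AD.TVS
import Pool.Agent.P.MP_119182_lc.AD.TTNT
import Pool.Agent.P.MP_119182_lc.AD.TOLD
import Pool.Agent.P.MP_119182_lc.AD.TSHR
import Pool.Agent.P.MP_119182_lc.AD.TFIB
import Pool.Agent.P.MP_119182_lc.AD.TQS
import Pool.Agent.P.MP_119182_lc.AD.TCHN
import Pool.Agent.P.MP_119182_lc.AD.TINC
import Pool.Agent.P.MP_119182_lc.AD.TPAIR
import Pool.Agent.P.MP_119182_lc.AD.TYNG
import Pool.Agent.P.MP_119182_lc.AD.TBC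
import Pool.Agent.P.MP_119182_lc.AD.TZG
import Pool.Agent.P.MP_119182_lc.AD.TABS
import Pool.Agent.P.MP_119182_lc.AD.TBUD
import Pool.Agent.P.MP_119182_lc.AD.TFIN

/-! The additive bound, assembled. -/

set_option autoImplicit false

namespace Pool.Agent.P.MP_119182_lc.AD

theorem a_BD : S_BD := p_BD
theorem a_FF : S_FF := p_FF a_BD
theorem a_GM : S_GM := p_GM
theorem a_FZ : S_FZ := p_FZ LU.a_LINK LU.a_HOLD
theorem a_TP : S_TP := p_TP a_BD a_FF a_GM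
theorem a_KEEP : S_KEEP := p_KEEP a_BD a_FF a_GM a_FZ a_TP LU.a_LINK
theorem a_UPP : S_UPP := p_UPP a_BD a_FF a_GM a_FZ a_TP LU.a_LINK
theorem a_BIR : S_BIR := p_BIR LU.a_LINK a_FZ
theorem a_MIR : S_MIR := p_MIR LU.a_MIRA
theorem a_PV : S_PV := p_PV a_FZ a_TP a_MIR LU.a_LINK LU.a_MIRA
theorem a_PA : S_PA := p_PA a_FZ a_PV a_KEEP a_BIR a_MIR LU.a_LINK LU.a_MIRA
theorem a_PB : S_PB := p_PB a_FF a_FZ a_TP a_PV a_UPP a_MIR LU.a_LINK LU.a_MIRA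
theorem a_POK : S_POK := p_POK a_FZ a_PV a_PA a_PB a_MIR LU.a_LINK LU.a_PI LU.a_MIRA
theorem a_PRI : S_PRI := p_PRI a_PV a_MIR LU.a_MIRA
theorem a_RFV : S_RFV := p_RFV a_BD a_FF a_GM a_FZ a_TP
theorem a_RFC : S_RFC := p_RFC a_BD a_FF a_FZ
theorem a_REF : S_REF := p_REF a_BD a_FZ a_RFV a_RFC
theorem a_CRS : S_CRS := p_CRS a_BD a_FZ LU.a_LINK
theorem a_ORD : S_ORD := p_ORD a_BD a_GM a_FZ
theorem a_LNK : S_LNK := p_LNK a_BD a_FF a_GM a_FZ a_TP a_ORD LU.a_LINK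
theorem a_RAI : S_RAI := p_RAI a_CRS a_LNK LU.a_LINK
theorem a_DQ : S_DQ := p_DQ a_FF a_GM a_FZ a_TP a_ORD a_LNK
theorem a_VS : S_VS := p_VS a_BD a_GM a_FZ a_LNK LU.a_LINK
theorem a_TNT : S_TNT := p_TNT a_VS a_CRS
theorem a_OLD : S_OLD := p_OLD a_GM a_VS
theorem a_SHR : S_SHR := p_SHR a_GM a_FZ a_VS LU.a_LINK
theorem a_FIB : S_FIB := p_FIB a_DQ a_SHR
theorem a_QS : S_QS := p_QS a_BD a_FF a_GM a_VS
theorem a_CHN : S_CHN := p_CHN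
theorem a_INC : S_INC := p_INC a_QS a_CHN
theorem a_PAIR : S_PAIR := p_PAIR a_GM a_VS a_CHN
theorem a_YNG : S_YNG := p_YNG a_FIB a_INC a_PAIR a_VS
theorem a_BC : S_BC := p_BC a_LNK a_VS a_TNT a_OLD a_YNG a_CHN
theorem a_ZG : S_ZG := p_ZG a_MIR LU.a_MIRA LU.a_LINK
theorem a_ABS : S_ABS := p_ABS LU.a_T a_POK a_PRI a_REF a_RAI a_BC a_ZG a_MIR
theorem a_BUD : S_BUD := p_BUD
theorem a_FIN : S_FIN :=
  p_FIN a_ABS a_BUD LW.p_LK (NU.p_ALGA NU.p_EMIR) NU.p_BRG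
    (NU.p_TURN NU.p_EMIR NU.p_WCNT NU.p_TSPL NU.p_NS (NU.p_DBL NU.p_LW))

end Pool.Agent.P.MP_119182_lc.AD
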