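import Pool.Agent.P.MP_119182_lc.AD.Iface

/-! Step BC. -/

set_option autoImplicit false

namespace Pool.Agent.P.MP_119182_lc.AD

open Finset
open scoped Classical
open NU (Run mr)
open LU (key tch up low isl Nx within beyond LK)

namespace BCx

theorem one (C K m Z : ℕ) (B : ℕ → ℕ)
    (hC : ∀ B I : ℕ, ∑ i ∈ range I, (i + 1) ^ 6 * (B / 2 ^ (i - 1)) ≤ C * B) :
    ∑ i ∈ range (Z + 1), 6 * (K * (i + 1) ^ 3) * (4 * m + ∑ s ∈ range m, B s / 2 ^ (i - 1)) *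
      (i + 1) ^ 3 ≤ 24 * K * m * (Z + 1) ^ 7 + 6 * K * C * ∑ s ∈ range m, B s := by
  have e : ∀ i ∈ range (Z + 1),
      6 * (K * (i + 1) ^ 3) * (4 * m + ∑ s ∈ range m, B s / 2 ^ (i - 1)) * (i + 1) ^ 3 ≤
        24 * K * m * (Z + 1) ^ 6 +
          6 * K * ∑ s ∈ range m, (i + 1) ^ 6 * (B s / 2 ^ (i - 1)) := by
    intro i hi
    have h1 : (i + 1) ^ 6 ≤ (Z + 1) ^ 6 := Nat.pow_le_pow_left (by have := mem_range.1 hi; omega) _
    rw [← mul_sum]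
    have h2 : 24 * K * m * (i + 1) ^ 6 ≤ 24 * K * m * (Z + 1) ^ 6 := Nat.mul_le_mul_left _ h1
    calc _ = 24 * K * m * (i + 1) ^ 6 +
          6 * K * ((i + 1) ^ 6 * ∑ s ∈ range m, B s / 2 ^ (i - 1)) := by ring
      _ ≤ _ := Nat.add_le_add_right h2 _
  refine le_trans (sum_le_sum e) ?_
  rw [sum_add_distrib, sum_const, card_range, smul_eq_mul, ← mul_sum, sum_comm]
  have h3 : ∑ s ∈ range m, ∑ i ∈ range (Z + 1), (i + 1) ^ 6 * (B s / 2 ^ (i - 1)) ≤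
      C * ∑ s ∈ range m, B s := by
    rw [mul_sum]
    exact sum_le_sum fun s _ => hC _ _
  calc _ ≤ (Z + 1) * (24 * K * m * (Z + 1) ^ 6) + 6 * K * (C * ∑ s ∈ range m, B s) :=
        Nat.add_le_add_left (Nat.mul_le_mul_left _ h3) _
    _ = _ := by ring

end BCx

theorem p_BC (hLNK : S_LNK) (hVS : S_VS) (hTNT : S_TNT) (hOLD : S_OLD) (hYNG : S_YNG) (hCHN : S_CHN) :
    S_BC := by
  obtain ⟨-, -, -, C, hC⟩ := hCHN
  refine ⟨6 * C + 25, fun K d S h => ?_⟩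
  set Z := Nat.size (ht S) with hZ
  have hb : ∀ p ∈ BAD d S, sc d S p.1 p.2 ≤ Z ∧ bj d S p.1 p.2 ≤ S.J := by
    intro p hp
    have b : bad d S p.1 p.2 := (mem_filter.1 hp).2
    exact ⟨Nat.size_le_size (hLNK d S h p.1 p.2 b.1).1.2.2.2.2.2.2.2,
      (hVS d S h p.1 p.2 b).2.2.2.1⟩
  have hc : ∀ p ∈ CL d S, p ∈ BAD d S := fun p hp => (mem_filter.1 hp).1
  have s1 : BC d S = ∑ p ∈ CL d S, (sc d S p.1 p.2 + 1) ^ 3 +
      ∑ p ∈ (BAD d S).filter (fun p => ¬ cln d S p.1 p.2), (sc d S p.1 p.2 + 1) ^ 3 :=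
    (sum_filter_add_sum_filter_not _ _ _).symm
  have s2 : ∑ p ∈ (BAD d S).filter (fun p => ¬ cln d S p.1 p.2), (sc d S p.1 p.2 + 1) ^ 3 ≤
      d.m * (S.J + 1) * (Z + 1) ^ 3 := by
    refine le_trans (sum_le_card_nsmul _ _ ((Z + 1) ^ 3) fun p hp => ?_) ?_
    · exact Nat.pow_le_pow_left (Nat.succ_le_succ (hb p (mem_filter.1 hp).1).1) _
    · rw [smul_eq_mul]
      exact Nat.mul_le_mul_right _ (hTNT d S h)
  set Y := (CL d S).filter fun p => #(vs d S p.1 p.2) ≤ K * (sc d S p.1 p.2 + 1) ^ 3 with hY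
  set O := (CL d S).filter fun p => ¬ #(vs d S p.1 p.2) ≤ K * (sc d S p.1 p.2 + 1) ^ 3 with hO
  have s3 : ∑ p ∈ CL d S, (sc d S p.1 p.2 + 1) ^ 3 =
      ∑ p ∈ Y, (sc d S p.1 p.2 + 1) ^ 3 + ∑ p ∈ O, (sc d S p.1 p.2 + 1) ^ 3 :=
    (sum_filter_add_sum_filter_not _ _ _).symm
  have s4 : K * ∑ p ∈ O, (sc d S p.1 p.2 + 1) ^ 3 ≤ d.NR := by
    rw [mul_sum]
    refine le_trans (sum_le_sum fun p hp => (not_le.1 (mem_filter.1 hp).2).le) ?_
    exact le_trans (sum_le_sum_of_subset (filter_subset _ _)) (hOLD d S h)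
  have s5 : ∑ p ∈ Y, (sc d S p.1 p.2 + 1) ^ 3 ≤
      ∑ j ∈ range (S.J + 1), (24 * K * d.m * (Z + 1) ^ 7 +
        6 * K * C * ∑ s ∈ range d.m, B0 d S j s) := by
    rw [← sum_fiberwise_of_maps_to (s := Y) (t := range (S.J + 1))
      (g := fun p => bj d S p.1 p.2)
      (fun p hp => mem_range.2 (Nat.lt_succ_of_le (hb p (hc p (mem_filter.1 hp).1)).2))]
    refine sum_le_sum fun j _ => le_trans ?_ (BCx.one C K d.m Z (B0 d S j) hC)
    rw [← sum_fiberwise_of_maps_to (s := Y.filter fun p => bj d S p.1 p.2 = j)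
      (t := range (Z + 1)) (g := fun p => sc d S p.1 p.2)
      (fun p hp => mem_range.2 (Nat.lt_succ_of_le
        (hb p (hc p (mem_filter.1 (mem_filter.1 hp).1).1)).1))]
    refine sum_le_sum fun i _ => ?_
    refine le_trans (sum_le_card_nsmul _ _ ((i + 1) ^ 3) fun p hp => ?_) ?_
    · rw [(mem_filter.1 hp).2]
    · rw [smul_eq_mul]
      refine Nat.mul_le_mul_right _ (le_trans (card_le_card fun p hp => ?_)
        (hYNG d S h j i (K * (i + 1) ^ 3)))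
      obtain ⟨h1, h2⟩ := mem_filter.1 hp
      obtain ⟨h3, h4⟩ := mem_filter.1 h1
      obtain ⟨h5, h6⟩ := mem_filter.1 h3
      exact mem_filter.2 ⟨h5, h4, h2, by rw [← h2]; exact h6⟩
  rw [sum_add_distrib, sum_const, card_range, smul_eq_mul, ← mul_sum, sum_comm] at s5
  have s6 : ∑ s ∈ range d.m, ∑ j ∈ range (S.J + 1), B0 d S j s = BB0 d S := rfl
  rw [s6] at s5
  have s7 : d.m * (S.J + 1) * (Z + 1) ^ 3 ≤ d.m * (S.J + 1) * (Z + 1) ^ 7 :=
    Nat.mul_le_mul_left _ (Nat.pow_le_pow_right (by omega) (by omega))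
  generalize d.m * (S.J + 1) * (Z + 1) ^ 3 = U at s2 s7
  have s8 : (S.J + 1) * (24 * K * d.m * (Z + 1) ^ 7) =
      24 * K * (d.m * (S.J + 1) * (Z + 1) ^ 7) := by ring
  rw [s8] at s5
  rw [s1, s3]
  generalize d.m * (S.J + 1) * (Z + 1) ^ 7 = V at s5 s7
  generalize BB0 d S = B at s5
  generalize ∑ p ∈ Y, (sc d S p.1 p.2 + 1) ^ 3 = y at s5
  generalize ∑ p ∈ O, (sc d S p.1 p.2 + 1) ^ 3 = o at s4
  generalize ∑ p ∈ (BAD d S).filter (fun p => ¬ cln d S p.1 p.2),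
    (sc d S p.1 p.2 + 1) ^ 3 = a at s2
  have t1 : K * y ≤ K * (24 * K * V + 6 * K * C * B) := Nat.mul_le_mul_left _ s5
  have t2 : K * a ≤ K * V := Nat.mul_le_mul_left _ (le_trans s2 s7)
  have t3 : K * (24 * K * V + 6 * K * C * B) + K * V ≤ (6 * C + 25) * (K + 1) ^ 2 * (B + V) := by
    have : (6 * C + 25) * (K + 1) ^ 2 * (B + V) =
        K * (24 * K * V + 6 * K * C * B) + K * V +
          ((6 * C * (2 * K + 1) + 25 * (K + 1) ^ 2) * B +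
            (6 * C * (K + 1) ^ 2 + K ^ 2 + 49 * K + 25) * V) := by ring
    omega
  have t4 : K * (y + o + a) = K * y + K * o + K * a := by ring
  omega

end Pool.Agent.P.MP_119182_lc.AD
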